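import Pool.Agent.U272.DP.Bis

/-!
# Point sets with a deep point and many bisectors
-/

set_option autoImplicit false

namespace Pool.Agent.U272.DP

open Finset

lemma central_of {P : Finset (ℝ × ℝ)} {r : ℕ} (hr : 1 ≤ r)
    (h : ∀ z : ℂ, Pool.Agent.U272.PS.pl z ∈ P →
      Pool.Agent.U272.PS.pl (Complex.exp (2 * Real.pi * Complex.I / (2 * r : ℕ)) * z) ∈ P) :
    ∀ p ∈ P, ((0, 0) : ℝ × ℝ) + (0, 0) - p ∈ P := by
  have hit : ∀ j : ℕ, ∀ z : ℂ, Pool.Agent.U272.PS.pl z ∈ P →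
      Pool.Agent.U272.PS.pl (Complex.exp (2 * Real.pi * Complex.I / (2 * r : ℕ)) ^ j * z) ∈ P := by
    intro j
    induction j with
    | zero =>
      intro z hz
      simpa using hz
    | succ j ih =>
      intro z hz
      have := h _ (ih z hz)
      rwa [← mul_assoc, ← pow_succ'] at this
  have hr0 : (r : ℂ) ≠ 0 := by exact_mod_cast (by omega : r ≠ 0)
  have h1 : Complex.exp (2 * Real.pi * Complex.I / (2 * r : ℕ)) ^ r = -1 := by
    rw [← Complex.exp_nat_mul]
    have : (r : ℂ) * (2 * Real.pi * Complex.I / (2 * r : ℕ)) = Real.pi * Complex.I := by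
      push_cast
      field_simp
    rw [this, Complex.exp_pi_mul_I]
  intro p hp
  have h2 := hit r ⟨p.1, p.2⟩ hp
  rw [h1, neg_one_mul] at h2
  have h3 : ((0, 0) : ℝ × ℝ) + (0, 0) - p = Pool.Agent.U272.PS.pl (-⟨p.1, p.2⟩) := by
    unfold Pool.Agent.U272.PS.pl
    apply Prod.ext <;> simp
  rw [h3]
  exact h2

/-- many bisectors and a deep point -/
theorem deep_lower (r s : ℕ) (hr : 1 ≤ r) (hs : Even s) :
    ∃ P : Finset (ℝ × ℝ), P.card = (2 * r + 1) * s ∧ KLev.Halving.GeneralPosition P ∧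
      Centres P s (fun _ : Fin 1 => (0, 0)) ∧ r * KLev.Halving.f s ≤ {L | KLev.Halving.IsBisector P L}.ncard := by
  classical
  obtain ⟨P, R, h1, h2, h3, h4, h5, h6⟩ := Pool.Agent.U272.AS.far_lower r s hr hs
  refine ⟨P, h1, h2, deep_of_sym h3 (central_of hr h5) (le_of_eq ?_), h6⟩
  convert h4

end Pool.Agent.U272.DP
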