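import Pool.Agent.U272.DP.Lev
import Pool.Agent.U272.AS.Far
import Pool.Agent.U272.AS.Bis

/-!
# Bisectors of point sets with a deep point
-/

set_option autoImplicit false

namespace Pool.Agent.U272.DP

open Finset Pool.Agent.TH124.KE Pool.Agent.R117.KR Filter Topology

open Pool.Agent.U272.AS (shr shr_inj hh_shr gp_shr edge_of lines_le exists_points ln mem_ln)

lemma gp_general {T : Finset (ℝ × ℝ)} (hT : GP T) : KLev.Halving.GeneralPosition T := by
  intro a b c hab p hp q hq r hr hpq hpr hqr h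
  obtain ⟨h1, h2, h3⟩ := h
  have h1' : a * p.1 + b * p.2 = c := h1
  have h2' : a * q.1 + b * q.2 = c := h2
  have h3' : a * r.1 + b * r.2 = c := h3
  have hpq1 := hT.ne1 hp hq hpq
  have hpr1 := hT.ne1 hp hr hpr
  have hb : b ≠ 0 := by
    intro hb
    have ha : a ≠ 0 := by
      rcases hab with h | h
      · exact h
      · exact absurd hb h
    rw [hb] at h1' h2'
    apply hpq1
    exact mul_left_cancel₀ ha (by linarith)
  have key : ∀ z : ℝ × ℝ, p.1 ≠ z.1 → a * z.1 + b * z.2 = c → sl p z = -a / b := by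
    intro z hz h
    unfold sl
    have : z.1 - p.1 ≠ 0 := sub_ne_zero.2 (Ne.symm hz)
    rw [div_eq_div_iff this hb]
    linarith
  exact hT.col p hp q hq r hr hpq hpr hqr ((key q hpq1 h2').trans (key r hpr1 h3').symm)

lemma low_case {T : Finset (ℝ × ℝ)} (hT : GP T) {j : ℕ} (hj : 2 * j + 2 ≤ #T) :
    ∃ m ≤ 2 * #T, #(kes T j) ≤ KLev.Halving.f m := by
  classical
  set U : Set (ℝ × ℝ) := ⋂ e ∈ kes T j, {z : ℝ × ℝ | hh (ss e) z < hh (ss e) e.1} with hU
  have hUo : IsOpen U := by
    apply isOpen_biInter_finset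
    intro e _
    exact isOpen_lt (by unfold hh; fun_prop) continuous_const
  have hUne : U.Nonempty := by
    have ev : ∀ᶠ K : ℝ in atTop, ∀ e ∈ kes T j, - hh (ss e) e.1 < K := by
      rw [Filter.eventually_all_finset]
      intro e _
      exact eventually_gt_atTop _
    obtain ⟨K, hK⟩ := ev.exists
    refine ⟨(0, -K), ?_⟩
    rw [hU, Set.mem_iInter₂]
    intro e he
    show hh (ss e) (0, -K) < hh (ss e) e.1
    have h1 := hK e he
    have h2 : hh (ss e) (0, -K) = -K := by
      unfold hh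
      ring
    rw [h2]
    linarith
  obtain ⟨T', hTT', hc, hG, hnew⟩ := exists_points (#T - 2 - 2 * j) (gp_general hT) hUo hUne
  refine ⟨T'.card, by omega, ?_⟩
  refine le_trans ?_ (KLev.Halving.le_f T' rfl hG)
  have hinj : Set.InjOn ln (kes T j : Set Seg) := by
    intro e he f hf h
    have hke := mem_kes.1 he
    have hkf := mem_kes.1 hf
    have m1 : f.1 ∈ ln e := by rw [h, mem_ln]
    have m2 : f.2 ∈ ln e := by rw [h, mem_ln]; exact hh_sl hkf.2.2.1.ne
    have hne : e.1 ≠ e.2 := by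
      intro h
      have := hke.2.2.1
      rw [h] at this
      exact lt_irrefl _ this
    have key : ∀ w ∈ T, w ∈ ln e → w = e.1 ∨ w = e.2 := by
      intro w hw hwL
      by_contra hcon
      push Not at hcon
      have h4 : sl e.1 w = sl e.1 e.2 :=
        (hh_eq (hT.ne1 hke.1 hw hcon.1.symm) _).1 (mem_ln.1 hwL)
      exact hT.col e.1 hke.1 w hw e.2 hke.2.1 hcon.1.symm hne hcon.2 h4
    have he3 := hke.2.2.1
    have hf3 := hkf.2.2.1
    rcases key _ hkf.1 m1 with f1 | f1 <;> rcases key _ hkf.2.1 m2 with f2 | f2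
    · rw [f1, f2] at hf3
      exact absurd hf3 (lt_irrefl _)
    · exact (Prod.ext f1 f2).symm
    · rw [f1, f2] at hf3
      exact absurd hf3 (lt_asymm he3)
    · rw [f1, f2] at hf3
      exact absurd hf3 (lt_irrefl _)
  rw [← card_image_of_injOn hinj, ← Set.ncard_coe_finset]
  apply Set.ncard_le_ncard _ (KLev.Halving.bisectors_finite T')
  intro L hL
  rw [mem_coe, mem_image] at hL
  obtain ⟨e, he, rfl⟩ := hL
  have hke := mem_kes.1 he
  have hne : e.1 ≠ e.2 := by
    intro h
    have := hke.2.2.1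
    rw [h] at this
    exact lt_irrefl _ this
  have hba := bel_abv hT hke.1 hke.2.1 hke.2.2.1
  have hbel : bel T (sl e.1 e.2) e.1 = j := hke.2.2.2
  have hnew' : ∀ z ∈ T', z ∉ T → hh (sl e.1 e.2) z < hh (sl e.1 e.2) e.1 := by
    intro z hz hzT
    have := hnew z hz hzT
    rw [hU, Set.mem_iInter₂] at this
    exact this e he
  have hcmp : ∀ z : ℝ × ℝ, -(sl e.1 e.2) * z.1 + 1 * z.2 = hh (sl e.1 e.2) z := by
    intro z
    unfold hh
    ring
  have hdiff : (T' \ T).card = #T - 2 - 2 * j := by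
    rw [card_sdiff_of_subset hTT', hc]
    omega
  refine ⟨-(sl e.1 e.2), 1, hh (sl e.1 e.2) e.1, Or.inr one_ne_zero, rfl,
    ⟨e.1, hTT' hke.1, e.2, hTT' hke.2.1, hne, mem_ln.2 rfl, mem_ln.2 (hh_sl hke.2.2.1.ne)⟩, ?_, ?_⟩
  · have h1 : T'.filter (fun p => -(sl e.1 e.2) * p.1 + 1 * p.2 < hh (sl e.1 e.2) e.1) =
        T.filter (fun r => hh (sl e.1 e.2) r < hh (sl e.1 e.2) e.1) ∪ (T' \ T) := by
      ext z
      rw [mem_filter, mem_union, mem_filter, Finset.mem_sdiff, hcmp]
      constructor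
      · rintro ⟨h1, h2⟩
        by_cases h3 : z ∈ T
        · exact Or.inl ⟨h3, h2⟩
        · exact Or.inr ⟨h1, h3⟩
      · rintro (⟨h1, h2⟩ | ⟨h1, h2⟩)
        · exact ⟨hTT' h1, h2⟩
        · exact ⟨h1, hnew' z h1 h2⟩
    rw [h1, card_union_of_disjoint, hdiff]
    · have h2 : (T.filter (fun r => hh (sl e.1 e.2) r < hh (sl e.1 e.2) e.1)).card = j := hbel
      rw [h2]
      omega
    · rw [disjoint_left]
      intro z h2 h3
      exact (mem_sdiff.1 h3).2 (mem_filter.1 h2).1
  · have h1 : T'.filter (fun p => hh (sl e.1 e.2) e.1 < -(sl e.1 e.2) * p.1 + 1 * p.2) =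
        T.filter (fun r => hh (sl e.1 e.2) e.1 < hh (sl e.1 e.2) r) := by
      ext z
      rw [mem_filter, mem_filter, hcmp]
      constructor
      · rintro ⟨h1, h2⟩
        by_cases h3 : z ∈ T
        · exact ⟨h3, h2⟩
        · exact absurd (hnew' z h1 h3) (not_lt.2 h2.le)
      · rintro ⟨h1, h2⟩
        exact ⟨hTT' h1, h2⟩
    rw [h1]
    have h2 : (T.filter (fun r => hh (sl e.1 e.2) e.1 < hh (sl e.1 e.2) r)).card =
        abv T (sl e.1 e.2) e.1 := rfl
    rw [h2]
    omega

/-- edges of few points and bisectors of twice as many points -/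
theorem kes_le_f {T : Finset (ℝ × ℝ)} (hT : GP T) (j : ℕ) :
    ∃ m ≤ 2 * #T, #(kes T j) ≤ KLev.Halving.f m := by
  classical
  rcases (kes T j).eq_empty_or_nonempty with h | ⟨e, he⟩
  · exact ⟨0, Nat.zero_le _, by rw [h, card_empty]; exact Nat.zero_le _⟩
  have hke := mem_kes.1 he
  have hba := bel_abv hT hke.1 hke.2.1 hke.2.2.1
  rw [hke.2.2.2] at hba
  rcases le_or_gt (2 * j + 2) #T with h | h
  · exact low_case hT h
  · have hc : #(T.image refl2) = #T := card_image_of_injective _ refl2_inj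
    obtain ⟨m, hm, h1⟩ := low_case (gp_refl hT) (j := #T - 2 - j) (by omega)
    rw [hc] at hm
    refine ⟨m, hm, le_trans ?_ h1⟩
    apply card_le_card_of_injOn (fun e => ((refl2 e.1, refl2 e.2) : Seg))
    · intro e he
      rw [mem_coe, mem_kes] at he
      rw [mem_coe, mem_kes]
      exact ke_refl hT he
    · intro e _ f _ h
      rw [Prod.mk.injEq] at h
      exact Prod.ext (refl2_inj h.1) (refl2_inj h.2)

open scoped Classical in
/-- in every direction the line through one of the points `o i` has at least `(|P| - s) / 2` points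
of `P` on each closed side -/
def Centres {c : ℕ} (P : Finset (ℝ × ℝ)) (s : ℕ) (o : Fin c → ℝ × ℝ) : Prop :=
  ∀ a b : ℝ, (a ≠ 0 ∨ b ≠ 0) → ∃ i,
    P.card ≤ 2 * (P.filter (fun p => a * (o i).1 + b * (o i).2 ≤ a * p.1 + b * p.2)).card + s ∧
    P.card ≤ 2 * (P.filter (fun p => a * p.1 + b * p.2 ≤ a * (o i).1 + b * (o i).2)).card + s

lemma line_once (o p : ℝ × ℝ) : Ri (fun σ => hh σ o) p ∨ Fa (fun σ => hh σ o) p := by
  have key : ∀ σ τ : ℝ, hh τ p - hh τ o = (hh σ p - hh σ o) + (o.1 - p.1) * (τ - σ) := by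
    intro σ τ
    unfold hh
    ring
  rcases le_total p.1 o.1 with h | h
  · left
    constructor
    · intro σ τ hστ h1
      have h2 := key σ τ
      have h3 : 0 ≤ (o.1 - p.1) * (τ - σ) := mul_nonneg (by linarith) (by linarith)
      linarith
    · intro σ τ hστ h1
      have h2 := key σ τ
      have h3 : 0 ≤ (o.1 - p.1) * (τ - σ) := mul_nonneg (by linarith) (by linarith)
      linarith
  · right
    constructor
    · intro σ τ hστ h1
      have h2 := key σ τ
      have h3 : (o.1 - p.1) * (τ - σ) ≤ 0 :=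
        mul_nonpos_of_nonpos_of_nonneg (by linarith) (by linarith)
      linarith
    · intro σ τ hστ h1
      have h2 := key σ τ
      have h3 : (o.1 - p.1) * (τ - σ) ≤ 0 :=
        mul_nonpos_of_nonpos_of_nonneg (by linarith) (by linarith)
      linarith

section

variable {P : Finset (ℝ × ℝ)} {c : ℕ} {o : Fin c → ℝ × ℝ} {s : ℕ}

open scoped Classical in
lemma deep_shr (h : Centres P s o) (v σ : ℝ) : ∃ i,
    P.card ≤ 2 * #((P.image (shr v)).filter (fun w => hh σ (shr v (o i)) ≤ hh σ w)) + s ∧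
      P.card ≤ 2 * #((P.image (shr v)).filter (fun w => hh σ w ≤ hh σ (shr v (o i)))) + s := by
  have e1 : ∀ z : ℝ × ℝ, hh σ (shr v z) = -σ * z.1 + (1 - σ * v) * z.2 := by
    intro z
    unfold hh shr
    ring
  have hab : (-σ ≠ 0 ∨ (1 - σ * v) ≠ 0) := by
    by_contra hc
    push Not at hc
    have : σ = 0 := by linarith [hc.1]
    rw [this] at hc
    have := hc.2
    norm_num at this
  obtain ⟨i, h1, h2⟩ := h _ _ hab
  refine ⟨i, ?_, ?_⟩
  · rw [filter_image, card_image_of_injective _ (shr_inj v)]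
    convert h1 using 5
    rw [e1, e1]
  · rw [filter_image, card_image_of_injective _ (shr_inj v)]
    convert h2 using 5
    rw [e1, e1]

/-- halving edges pass close to a deep point -/
lemma deep_NN {Q : Finset (ℝ × ℝ)} {g : ℝ → ℝ} {k n s : ℕ} (hQ : GP Q) (hn : #Q = n)
    (hk : k + k + 2 = n)
    {e : Seg} (he : e ∈ kes Q k)
    (h1 : n ≤ 2 * (Q.filter (fun w => g (ss e) ≤ hh (ss e) w)).card + s)
    (h2 : n ≤ 2 * (Q.filter (fun w => hh (ss e) w ≤ g (ss e))).card + s) :
    NN g Q (ss e) e.1 ≤ s / 2 := by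
  classical
  have hke := mem_kes.1 he
  have hb : #(Q.filter (fun w => hh (ss e) w < hh (ss e) e.1)) = k := hke.2.2.2
  have hba := bel_abv hQ hke.1 hke.2.1 hke.2.2.1
  rw [hke.2.2.2] at hba
  have ha : #(Q.filter (fun w => hh (ss e) e.1 < hh (ss e) w)) = k := by
    have : #(Q.filter (fun w => hh (ss e) e.1 < hh (ss e) w)) = abv Q (sl e.1 e.2) e.1 := rfl
    omega
  rcases lt_trichotomy (hh (ss e) e.1) (g (ss e)) with h | h | h
  · have hd : Q.filter (fun w => g (ss e) ≤ hh (ss e) w) ∪ Q.filter (Bt g (ss e) e.1) ⊆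
        Q.filter (fun w => hh (ss e) e.1 < hh (ss e) w) := by
      intro w hw
      rw [mem_union, mem_filter, mem_filter] at hw
      rw [mem_filter]
      rcases hw with hw | hw
      · exact ⟨hw.1, lt_of_lt_of_le h hw.2⟩
      · rcases hw.2 with h3 | h3
        · exfalso
          linarith [h3.1, h3.2]
        · exact ⟨hw.1, h3.1⟩
    have hc := card_le_card hd
    rw [card_union_of_disjoint, ha] at hc
    · have e1 : NN g Q (ss e) e.1 = #(Q.filter (Bt g (ss e) e.1)) := rfl
      omega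
    · rw [disjoint_left]
      intro w hw hw'
      rw [mem_filter] at hw hw'
      rcases hw'.2 with h3 | h3
      · linarith [h3.1, h3.2]
      · linarith [h3.2, hw.2]
  · rw [NN_on h]
    exact Nat.zero_le _
  · have hd : Q.filter (fun w => hh (ss e) w ≤ g (ss e)) ∪ Q.filter (Bt g (ss e) e.1) ⊆
        Q.filter (fun w => hh (ss e) w < hh (ss e) e.1) := by
      intro w hw
      rw [mem_union, mem_filter, mem_filter] at hw
      rw [mem_filter]
      rcases hw with hw | hw
      · exact ⟨hw.1, lt_of_le_of_lt hw.2 h⟩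
      · rcases hw.2 with h3 | h3
        · exact ⟨hw.1, h3.2⟩
        · exfalso
          linarith [h3.1, h3.2]
    have hc := card_le_card hd
    rw [card_union_of_disjoint, hb] at hc
    · have e1 : NN g Q (ss e) e.1 = #(Q.filter (Bt g (ss e) e.1)) := rfl
      omega
    · rw [disjoint_left]
      intro w hw hw'
      rw [mem_filter] at hw hw'
      rcases hw'.2 with h3 | h3
      · linarith [h3.1, hw.2]
      · linarith [h3.1, h3.2]

open scoped Classical in
/-- bisectors are few if the halving edges of all sheared sets are few -/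
theorem bisectors_core (hP : KLev.Halving.GeneralPosition P) (hD : Centres P s o) :
    {L | IsBisector P L}.ncard = 0 ∨ ∃ k : ℕ, ∃ Q : Finset (ℝ × ℝ), ∃ o' : Fin c → ℝ × ℝ, GP Q ∧
      #Q = P.card ∧ {L | IsBisector P L}.ncard ≤ #(kes Q k) ∧
      ∀ e ∈ kes Q k, ∃ i, NN (fun σ => hh σ (o' i)) Q (ss e) e.1 ≤ s / 2 := by
  obtain ⟨v, hs⟩ := Pool.Agent.U272.PS.exists_s P
  by_cases hfin : {L | IsBisector P L}.Finite
  swap
  · exact Or.inl (Set.Infinite.ncard hfin)
  rw [Set.ncard_eq_toFinset_card _ hfin]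
  set S := hfin.toFinset with hSdef
  have hmem : ∀ L, L ∈ S → IsBisector P L := fun L hL => by
    rw [hSdef, Set.Finite.mem_toFinset] at hL
    exact hL
  rcases S.eq_empty_or_nonempty with h0 | ⟨L₀, hL₀⟩
  · left
    rw [h0, card_empty]
  right
  have hed : ∀ L ∈ S, ∃ a b c' : ℝ, (a ≠ 0 ∨ b ≠ 0) ∧ L = Line a b c' ∧
      (∃ p ∈ P, ∃ q ∈ P, p ≠ q ∧ p ∈ L ∧ q ∈ L ∧
        ((shr v p, shr v q) : Seg) ∈ kes (P.image (shr v)) (P.card / 2 - 1)) ∧
      (P.card / 2 - 1) + (P.card / 2 - 1) + 2 = P.card := by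
    intro L hL
    obtain ⟨a, b, c', hab, rfl, ⟨p, hp, q, hq, hpq, hpL, hqL⟩, e1, e2⟩ := hmem L hL
    obtain ⟨p', q', hp', hq', hpq', hp'L, hq'L, h1, h2⟩ := edge_of hP hs hab hp hq hpq hpL hqL
    rw [e1, e2] at h1 h2
    refine ⟨a, b, c', hab, rfl, ⟨p', hp', q', hq', hpq', hp'L, hq'L, ?_⟩, h2⟩
    rw [mem_kes]
    exact h1.elim id id
  have h1 : S.card ≤ (kes (P.image (shr v)) (P.card / 2 - 1)).card := by
    apply lines_le hP hs
    intro L hL
    obtain ⟨a, b, c', hab, hLe, h2, -⟩ := hed L hL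
    exact ⟨a, b, c', hab, hLe, h2⟩
  obtain ⟨-, -, -, -, -, -, h2⟩ := hed L₀ hL₀
  have hcard : #(P.image (shr v)) = P.card := card_image_of_injective _ (shr_inj v)
  refine ⟨P.card / 2 - 1, P.image (shr v), fun i => shr v (o i), gp_shr hP hs, hcard, h1, ?_⟩
  intro e he
  obtain ⟨i, h3, h4⟩ := deep_shr hD v (ss e)
  exact ⟨i, deep_NN (gp_shr hP hs) hcard h2 he (by convert h3) (by convert h4)⟩

open scoped Classical in
/-- the reduction to few points -/
theorem bisectors_red (hP : KLev.Halving.GeneralPosition P) (hD : Centres P s o) {E : ℕ}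
    (hE : ∀ m ≤ 20 * (s / 2 + 2), KLev.Halving.f m ≤ E) :
    ({L | IsBisector P L}.ncard : ℝ) ≤ c * (196 * P.card / ((s : ℝ) + 2) + 1) * E := by
  rcases bisectors_core hP hD with h | ⟨k, Q, o', hG, hc, h1, h2⟩
  · rw [h, Nat.cast_zero]
    positivity
  · have h3 := kes_red_fam (G := fun i σ => hh σ (o' i)) hG (fun i p _ => line_once (o' i) p) h2
      (E := E) (by
      intro T hT hTc j
      obtain ⟨m, hm, h4⟩ := kes_le_f (hG.mono hT) j
      exact h4.trans (hE m (by omega)))
    have h4 := slabs_le #Q (s / 2)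
    set N := 98 * (s / 2 + 2) * #Q / (s / 2 + 2) ^ 2 + 1 with hN
    have h5 : ({L | IsBisector P L}.ncard : ℝ) ≤ c * ((N : ℝ) * E) := by
      exact_mod_cast h1.trans h3
    have h6 : (98 * #Q / (((s / 2 : ℕ) : ℝ) + 2) + 1 : ℝ) ≤ 196 * P.card / ((s : ℝ) + 2) + 1 := by
      rw [hc]
      have h7 : (s : ℝ) + 2 ≤ 2 * (((s / 2 : ℕ) : ℝ) + 2) := by
        exact_mod_cast (by omega : s + 2 ≤ 2 * (s / 2 + 2))
      have h8 : (98 * (P.card : ℝ) / (((s / 2 : ℕ) : ℝ) + 2) : ℝ) ≤
          196 * P.card / ((s : ℝ) + 2) := by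
        rw [div_le_div_iff₀ (by positivity) (by positivity)]
        have h9 : (0 : ℝ) ≤ P.card := Nat.cast_nonneg _
        nlinarith
      linarith
    refine h5.trans ?_
    rw [mul_assoc]
    exact mul_le_mul_of_nonneg_left
      (mul_le_mul_of_nonneg_right (h4.trans h6) (Nat.cast_nonneg _)) (Nat.cast_nonneg _)

open scoped Classical in
/-- the explicit bound -/
theorem bisectors_le (hP : KLev.Halving.GeneralPosition P) (hD : Centres P s o) :
    ({L | IsBisector P L}.ncard : ℝ) ≤ 20000 * c * P.card * ((s : ℝ) + 1) ^ ((1 : ℝ) / 3) := by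
  rcases bisectors_core hP hD with h | ⟨k, Q, o', hG, hc, h1, h2⟩
  · rw [h, Nat.cast_zero]
    positivity
  · have h3 := kes_main_fam (G := fun i σ => hh σ (o' i)) hG (fun i p _ => line_once (o' i) p) h2
    rw [hc] at h3
    have h4 : ({L | IsBisector P L}.ncard : ℝ) ≤ #(kes Q k) := by exact_mod_cast h1
    refine h4.trans (h3.trans ?_)
    apply mul_le_mul_of_nonneg_left _ (by positivity)
    apply Real.rpow_le_rpow (by positivity) _ (by norm_num)
    have : ((s / 2 : ℕ) : ℝ) ≤ s := by exact_mod_cast Nat.div_le_self s 2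
    linarith

open scoped Classical in
/-- a set with a large centrally symmetric subset has a deep point -/
lemma deep_of_sym {R : Finset (ℝ × ℝ)} {o : ℝ × ℝ} (hRP : R ⊆ P) (hR : ∀ p ∈ R, o + o - p ∈ R)
    {s : ℕ} (hs : (P \ R).card ≤ s) : Centres P s (fun _ : Fin 1 => o) := by
  intro a b _
  refine ⟨0, ?_⟩
  have h1 : (R.filter (fun p => a * o.1 + b * o.2 ≤ a * p.1 + b * p.2)).card =
      (R.filter (fun p => a * p.1 + b * p.2 ≤ a * o.1 + b * o.2)).card := by
    have key : ∀ p : ℝ × ℝ, a * (o + o - p).1 + b * (o + o - p).2 =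
        2 * (a * o.1 + b * o.2) - (a * p.1 + b * p.2) := by
      intro p
      simp only [Prod.fst_sub, Prod.snd_sub, Prod.fst_add, Prod.snd_add]
      ring
    apply card_nbij' (fun p => o + o - p) (fun p => o + o - p)
    · intro p hp
      rw [mem_coe, mem_filter] at hp
      show _ ∈ ((R.filter _ : Finset (ℝ × ℝ)) : Set (ℝ × ℝ))
      rw [mem_coe, mem_filter]
      exact ⟨hR p hp.1, by rw [key]; linarith [hp.2]⟩
    · intro p hp
      rw [mem_coe, mem_filter] at hp
      show _ ∈ ((R.filter _ : Finset (ℝ × ℝ)) : Set (ℝ × ℝ))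
      rw [mem_coe, mem_filter]
      exact ⟨hR p hp.1, by rw [key]; linarith [hp.2]⟩
    · intro p _
      exact sub_sub_cancel _ _
    · intro p _
      exact sub_sub_cancel _ _
  have h2 : R.card ≤ (R.filter (fun p => a * o.1 + b * o.2 ≤ a * p.1 + b * p.2)).card +
      (R.filter (fun p => a * p.1 + b * p.2 ≤ a * o.1 + b * o.2)).card := by
    refine (card_le_card ?_).trans (card_union_le _ _)
    intro p hp
    rw [mem_union, mem_filter, mem_filter]
    rcases le_total (a * o.1 + b * o.2) (a * p.1 + b * p.2) with h | h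
    · exact Or.inl ⟨hp, h⟩
    · exact Or.inr ⟨hp, h⟩
  have h3 : (R.filter (fun p => a * o.1 + b * o.2 ≤ a * p.1 + b * p.2)).card ≤
      (P.filter (fun p => a * o.1 + b * o.2 ≤ a * p.1 + b * p.2)).card :=
    card_le_card (filter_subset_filter _ hRP)
  have h5 : (R.filter (fun p => a * p.1 + b * p.2 ≤ a * o.1 + b * o.2)).card ≤
      (P.filter (fun p => a * p.1 + b * p.2 ≤ a * o.1 + b * o.2)).card :=
    card_le_card (filter_subset_filter _ hRP)
  have h4 : (P \ R).card + R.card = P.card := card_sdiff_add_card_eq_card hRP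
  constructor
  · show P.card ≤ 2 * (P.filter (fun p => a * o.1 + b * o.2 ≤ a * p.1 + b * p.2)).card + s
    omega
  · show P.card ≤ 2 * (P.filter (fun p => a * p.1 + b * p.2 ≤ a * o.1 + b * o.2)).card + s
    omega

end

end Pool.Agent.U272.DP
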