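import Pool.Agent.U272.DP.Zone

/-!
# Pairs with at most `M` points between their line and a curve
-/

set_option autoImplicit false

namespace Pool.Agent.U272.DP

open Finset Pool.Agent.TH124.KE

variable {g : ℝ → ℝ} {P : Finset (ℝ × ℝ)}

lemma hh_neg' (σ : ℝ) (p : ℝ × ℝ) : hh σ (-p) = - hh σ p := by
  unfold hh
  simp only [Prod.fst_neg, Prod.snd_neg]
  ring

lemma sl_neg' (p q : ℝ × ℝ) : sl (-p) (-q) = sl p q := by
  unfold sl
  simp only [Prod.fst_neg, Prod.snd_neg]
  rw [← neg_div_neg_eq]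
  congr 1 <;> ring

lemma gp_neg (hP : GP P) : GP (P.image (fun p => -p)) := by
  constructor
  · intro p hp q hq h
    obtain ⟨p', hp', rfl⟩ := mem_image.mp hp
    obtain ⟨q', hq', rfl⟩ := mem_image.mp hq
    have h' : p'.1 = q'.1 := by
      simp only [Prod.fst_neg] at h
      linarith
    rw [hP.inj p' hp' q' hq' h']
  · intro p hp q hq r hr hpq hpr hqr h
    obtain ⟨p', hp', rfl⟩ := mem_image.mp hp
    obtain ⟨q', hq', rfl⟩ := mem_image.mp hq
    obtain ⟨r', hr', rfl⟩ := mem_image.mp hr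
    rw [sl_neg', sl_neg'] at h
    exact hP.col p' hp' q' hq' r' hr' (fun h => hpq (by rw [h])) (fun h => hpr (by rw [h]))
      (fun h => hqr (by rw [h])) h

lemma ri_neg {p : ℝ × ℝ} (h : Ri g p) : Fa (fun σ => - g σ) (-p) := by
  constructor
  · intro σ τ hστ h1
    rw [hh_neg'] at h1 ⊢
    have := h.1 σ τ hστ (by linarith)
    linarith
  · intro σ τ hστ h1
    rw [hh_neg'] at h1 ⊢
    have := h.2 σ τ hστ (by linarith)
    linarith

lemma fa_neg {p : ℝ × ℝ} (h : Fa g p) : Ri (fun σ => - g σ) (-p) := by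
  constructor
  · intro σ τ hστ h1
    rw [hh_neg'] at h1 ⊢
    have := h.1 σ τ hστ (by linarith)
    linarith
  · intro σ τ hστ h1
    rw [hh_neg'] at h1 ⊢
    have := h.2 σ τ hστ (by linarith)
    linarith

open scoped Classical in
/-- pairs with nothing between their line and `g` -/
noncomputable def Emp (g : ℝ → ℝ) (W : Finset (ℝ × ℝ)) : Finset Seg :=
  (W ×ˢ W).filter (fun e => e.1.1 < e.2.1 ∧ hh (ss e) e.1 ≠ g (ss e) ∧
    ∀ w ∈ W, ¬ Bt g (ss e) e.1 w)

theorem Emp_le {W : Finset (ℝ × ℝ)} (hW : GP W) (h1 : ∀ p ∈ W, Ri g p ∨ Fa g p) :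
    #(Emp g W) ≤ 8 * #W := by
  classical
  set W' := W.image (fun p => -p) with hW'
  have hc : #W' = #W := card_image_of_injective _ neg_injective
  have ha := E0_le hW h1
  have hb := E0_le (g := fun σ => - g σ) (gp_neg hW) (by
    intro p hp
    obtain ⟨q, hq, rfl⟩ := mem_image.mp hp
    rcases h1 q hq with h | h
    · exact Or.inr (ri_neg h)
    · exact Or.inl (fa_neg h))
  rw [← hW', hc] at hb
  have hsplit : #(Emp g W) = #((Emp g W).filter (fun e => g (ss e) < hh (ss e) e.1)) +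
      #((Emp g W).filter (fun e => ¬ g (ss e) < hh (ss e) e.1)) :=
    (card_filter_add_card_filter_not _).symm
  have h2 : #((Emp g W).filter (fun e => g (ss e) < hh (ss e) e.1)) ≤ #(E0 g W) := by
    apply card_le_card
    intro e he
    unfold Emp at he
    rw [mem_filter, mem_filter] at he
    unfold E0
    rw [mem_filter]
    exact ⟨he.1.1, he.1.2.1, he.2, fun w hw h => he.1.2.2.2 w hw (Or.inl h)⟩
  have h3 : #((Emp g W).filter (fun e => ¬ g (ss e) < hh (ss e) e.1)) ≤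
      #(E0 (fun σ => - g σ) W') := by
    apply card_le_card_of_injOn (fun e => ((-e.2, -e.1) : Seg))
    · intro e he
      rw [mem_coe] at he
      unfold Emp at he
      rw [mem_filter, mem_filter, mem_product] at he
      obtain ⟨⟨⟨he1, he2⟩, he3, he4, he5⟩, he6⟩ := he
      have e2 : hh (ss e) e.2 = hh (ss e) e.1 := hh_sl he3.ne
      have hs : ss ((-e.2, -e.1) : Seg) = ss e := by
        show sl (-e.2) (-e.1) = sl e.1 e.2
        rw [sl_neg', sl_comm]
      have he7 : hh (ss e) e.1 < g (ss e) := lt_of_le_of_ne (not_lt.1 he6) he4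
      rw [mem_coe]
      unfold E0
      rw [mem_filter, mem_product, hs]
      refine ⟨⟨mem_image_of_mem _ he2, mem_image_of_mem _ he1⟩, ?_, ?_, ?_⟩
      · show (-e.2).1 < (-e.1).1
        simp only [Prod.fst_neg]
        linarith
      · show - g (ss e) < hh (ss e) (-e.2)
        rw [hh_neg', e2]
        linarith
      · intro w hw h
        obtain ⟨z, hz, rfl⟩ := mem_image.1 hw
        have h' : - g (ss e) < hh (ss e) (-z) ∧ hh (ss e) (-z) < hh (ss e) (-e.2) := h
        rw [hh_neg', hh_neg', e2] at h'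
        exact he5 z hz (Or.inr ⟨by linarith [h'.2], by linarith [h'.1]⟩)
    · intro e _ f _ h
      rw [Prod.mk.injEq] at h
      exact Prod.ext (neg_injective h.2) (neg_injective h.1)
  omega

open scoped Classical in
/-- the number of points strictly between `g` and `p` -/
noncomputable def NN (g : ℝ → ℝ) (P : Finset (ℝ × ℝ)) (σ : ℝ) (p : ℝ × ℝ) : ℕ :=
  #(P.filter (Bt g σ p))

open scoped Classical in
/-- the events -/
noncomputable def EV (g : ℝ → ℝ) (P : Finset (ℝ × ℝ)) (M : ℕ) : Finset Seg :=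
  (P ×ˢ P).filter (fun e => e.1.1 < e.2.1 ∧ hh (ss e) e.1 ≠ g (ss e) ∧ NN g P (ss e) e.1 ≤ M)

/-- at most `32 (M + 1) n` pairs have at most `M` points between their line and `g` -/
theorem EV_le (hP : GP P) (h1 : ∀ p ∈ P, Ri g p ∨ Fa g p) (M : ℕ) :
    #(EV g P M) ≤ 32 * (M + 1) * #P := by
  classical
  set s := 2 * (M + 1) with hs
  set Z : Seg → Finset (ℝ × ℝ) := fun e => P.filter (Bt g (ss e) e.1) with hZ
  have hlow : ∀ e ∈ EV g P M, ∀ i : Fin s, s ^ #P ≤
      #{c : P → Fin s | ({e.1, e.2} : Finset (ℝ × ℝ)) ⊆ cls P c i ∧ ∀ z ∈ Z e, z ∉ cls P c i} *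
        (2 * s ^ 2) := by
    intro e he i
    unfold EV at he
    rw [mem_filter, mem_product] at he
    obtain ⟨⟨h1, h2⟩, h3, -, h4⟩ := he
    have hne : e.1 ≠ e.2 := by intro hc; rw [hc] at h3; exact lt_irrefl _ h3
    have hT : ({e.1, e.2} : Finset (ℝ × ℝ)) ⊆ P := by
      intro x hx
      rw [mem_insert, mem_singleton] at hx
      rcases hx with rfl | rfl
      · exact h1
      · exact h2
    have hZP : Z e ⊆ P := Finset.filter_subset _ _
    have e2 : hh (ss e) e.2 = hh (ss e) e.1 := hh_sl h3.ne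
    have hd : Disjoint ({e.1, e.2} : Finset (ℝ × ℝ)) (Z e) := by
      rw [Finset.disjoint_left]
      intro x hx hxZ
      rw [hZ] at hxZ
      dsimp only at hxZ
      rw [mem_filter] at hxZ
      unfold Bt at hxZ
      rw [mem_insert, mem_singleton] at hx
      rcases hx with rfl | rfl
      · rcases hxZ.2 with h | h
        · exact lt_irrefl _ h.2
        · exact lt_irrefl _ h.1
      · rw [e2] at hxZ
        rcases hxZ.2 with h | h
        · exact lt_irrefl _ h.2
        · exact lt_irrefl _ h.1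
    have h5 := cnt P {e.1, e.2} (Z e) hT hZP hd i
    rw [card_pair hne] at h5
    have h6 : #(Z e) ≤ M := h4
    have h7 := bern s #(Z e)
    have h8 : M + 1 ≤ s - #(Z e) := by omega
    have h9 : s ^ #(Z e) * (M + 1) ≤ (2 * (s - 1) ^ #(Z e)) * (M + 1) := by
      calc s ^ #(Z e) * (M + 1) ≤ s ^ #(Z e) * (s - #(Z e)) := Nat.mul_le_mul_left _ h8
        _ ≤ s * (s - 1) ^ #(Z e) := h7
        _ = (2 * (s - 1) ^ #(Z e)) * (M + 1) := by rw [hs]; ring
    have h10 : s ^ #(Z e) ≤ 2 * (s - 1) ^ #(Z e) := Nat.le_of_mul_le_mul_right h9 (by omega)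
    have hpos : 0 < s ^ #(Z e) := by positivity
    set N := #{c : P → Fin s | ({e.1, e.2} : Finset (ℝ × ℝ)) ⊆ cls P c i ∧
      ∀ z ∈ Z e, z ∉ cls P c i}
    have h11 : s ^ #P * s ^ #(Z e) ≤ (N * (2 * s ^ 2)) * s ^ #(Z e) := by
      calc s ^ #P * s ^ #(Z e) ≤ s ^ #P * (2 * (s - 1) ^ #(Z e)) := Nat.mul_le_mul_left _ h10
        _ = 2 * ((s - 1) ^ #(Z e) * s ^ #P) := by ring
        _ = 2 * (N * s ^ (2 + #(Z e))) := by rw [h5]
        _ = (N * (2 * s ^ 2)) * s ^ #(Z e) := by rw [pow_add]; ring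
    exact Nat.le_of_mul_le_mul_right h11 hpos
  have hup : ∀ (c : P → Fin s) (i : Fin s),
      #{e ∈ EV g P M | ({e.1, e.2} : Finset (ℝ × ℝ)) ⊆ cls P c i ∧ ∀ z ∈ Z e, z ∉ cls P c i} ≤
        8 * #{x ∈ P | ({x} : Finset (ℝ × ℝ)) ⊆ cls P c i} := by
    intro c i
    set W := cls P c i with hW
    have hWP : W ⊆ P := cls_subset P c i
    have e1 : #{x ∈ P | ({x} : Finset (ℝ × ℝ)) ⊆ W} = #W := by
      congr 1
      ext x
      rw [mem_filter, singleton_subset_iff]
      exact ⟨fun h => h.2, fun h => ⟨hWP h, h⟩⟩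
    rw [e1]
    refine (card_le_card ?_).trans (Emp_le (hP.mono hWP) fun p hp => h1 p (hWP hp))
    intro e he
    rw [mem_filter] at he
    obtain ⟨he0, he1, he2⟩ := he
    unfold EV at he0
    rw [mem_filter, mem_product] at he0
    unfold Emp
    rw [mem_filter, mem_product]
    refine ⟨⟨he1 (mem_insert_self _ _), he1 (mem_insert_of_mem (mem_singleton_self _))⟩,
      he0.2.1, he0.2.2.1, ?_⟩
    intro w hw hb
    exact he2 w (mem_filter.2 ⟨hWP hw, hb⟩) hw
  have hsum : ∑ c : P → Fin s, ∑ i : Fin s,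
      #{e ∈ EV g P M | ({e.1, e.2} : Finset (ℝ × ℝ)) ⊆ cls P c i ∧ ∀ z ∈ Z e, z ∉ cls P c i} =
      ∑ e ∈ EV g P M, ∑ i : Fin s,
        #{c : P → Fin s | ({e.1, e.2} : Finset (ℝ × ℝ)) ⊆ cls P c i ∧ ∀ z ∈ Z e, z ∉ cls P c i} := by
    simp_rw [Finset.card_filter]
    rw [Finset.sum_comm]
    rw [Finset.sum_comm (s := EV g P M)]
    refine Finset.sum_congr rfl fun i _ => ?_
    rw [Finset.sum_comm]
  have h1 := cnt_sum P P (fun x => {x}) 1 s (by
    intro x hx
    exact ⟨by simpa using hx, card_singleton _⟩)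
  have h2 : ∑ c : P → Fin s, ∑ i : Fin s,
      #{e ∈ EV g P M | ({e.1, e.2} : Finset (ℝ × ℝ)) ⊆ cls P c i ∧ ∀ z ∈ Z e, z ∉ cls P c i} ≤
      8 * ∑ c : P → Fin s, ∑ i : Fin s, #{x ∈ P | ({x} : Finset (ℝ × ℝ)) ⊆ cls P c i} := by
    rw [Finset.mul_sum]
    refine Finset.sum_le_sum fun c _ => ?_
    rw [Finset.mul_sum]
    exact Finset.sum_le_sum fun i _ => hup c i
  have h3 : #(EV g P M) * (s * s ^ #P) ≤ (∑ e ∈ EV g P M, ∑ i : Fin s,
      #{c : P → Fin s | ({e.1, e.2} : Finset (ℝ × ℝ)) ⊆ cls P c i ∧ ∀ z ∈ Z e, z ∉ cls P c i}) *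
      (2 * s ^ 2) := by
    rw [Finset.sum_mul]
    calc #(EV g P M) * (s * s ^ #P) = ∑ e ∈ EV g P M, s * s ^ #P := by simp
      _ ≤ _ := by
        refine Finset.sum_le_sum fun e he => ?_
        rw [Finset.sum_mul]
        calc s * s ^ #P = ∑ i : Fin s, s ^ #P := by simp
          _ ≤ _ := Finset.sum_le_sum fun i _ => hlow e he i
  rw [← hsum] at h3
  set S1 := ∑ c : P → Fin s, ∑ i : Fin s, #{x ∈ P | ({x} : Finset (ℝ × ℝ)) ⊆ cls P c i}
  have hspos : 0 < s := by omega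
  have h4 : #(EV g P M) * (s * s ^ #P) ≤ (16 * s * #P) * (s * s ^ #P) := by
    calc #(EV g P M) * (s * s ^ #P) ≤ (8 * S1) * (2 * s ^ 2) :=
          h3.trans (Nat.mul_le_mul_right _ h2)
      _ = 16 * s * (s ^ 1 * S1) := by ring
      _ = 16 * s * (#P * (s * s ^ #P)) := by rw [h1]
      _ = _ := by ring
  have h5 := Nat.le_of_mul_le_mul_right h4 (by positivity)
  calc #(EV g P M) ≤ 16 * s * #P := h5
    _ = 32 * (M + 1) * #P := by rw [hs]; ring

end Pool.Agent.U272.DP
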