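import Pool.Agent.U272.DP.Main
import Pool.Agent.U272.AS.Lev

/-!
# Levels that stay close to a curve which crosses every line at most once
-/

set_option autoImplicit false

namespace Pool.Agent.U272.DP

open Finset Pool.Agent.TH124.KE KLev.Levels

open Pool.Agent.U272.AS (SimpleFam gp_of hh_height complexity_le_kes)

/-- edges are vertices of the level -/
theorem kes_le_e {T : Finset (ℝ × ℝ)} (hT : GP T) (j : ℕ) : #(kes T j) ≤ e j #T := by
  classical
  have hpar : ∀ e f : Seg, e ∈ kes T j → f ∈ kes T j → ss e = ss f →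
      ¬ hh (ss e) e.1 < hh (ss e) f.1 := by
    intro e f he hf hs hlt
    have hke := mem_kes.1 he
    have hkf := mem_kes.1 hf
    have b1 : #(T.filter (fun r => hh (ss e) r < hh (ss e) e.1)) = j := hke.2.2.2
    have b2 : #(T.filter (fun r => hh (ss e) r < hh (ss e) f.1)) = j := by
      rw [hs]
      exact hkf.2.2.2
    have hsub : T.filter (fun r => hh (ss e) r < hh (ss e) e.1) ⊂
        T.filter (fun r => hh (ss e) r < hh (ss e) f.1) := by
      rw [Finset.ssubset_iff_of_subset]
      · exact ⟨e.1, mem_filter.2 ⟨hke.1, hlt⟩, fun h => lt_irrefl _ (mem_filter.1 h).2⟩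
      · intro r hr
        rw [mem_filter] at hr ⊢
        exact ⟨hr.1, hr.2.trans hlt⟩
    have := card_lt_card hsub
    omega
  have hoff : ∀ e ∈ kes T j, ∀ w ∈ T, w ≠ e.1 → w ≠ e.2 → hh (ss e) w ≠ hh (ss e) e.1 := by
    intro e he w hw h1 h2 h3
    have hke := mem_kes.1 he
    have hne : e.1 ≠ e.2 := by
      intro h
      have := hke.2.2.1
      rw [h] at this
      exact lt_irrefl _ this
    have h4 : sl e.1 w = ss e := (hh_eq (hT.ne1 hke.1 hw h1.symm) _).1 h3
    exact hT.col e.1 hke.1 w hw e.2 hke.2.1 h1.symm hne h2 (h4.trans rfl)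
  have hinj : ∀ e ∈ kes T j, ∀ f ∈ kes T j, ss e = ss f → e = f := by
    intro e he f hf hs
    have hke := mem_kes.1 he
    have hkf := mem_kes.1 hf
    have h1 : hh (ss e) e.1 = hh (ss e) f.1 := by
      rcases lt_trichotomy (hh (ss e) e.1) (hh (ss e) f.1) with h | h | h
      · exact absurd h (hpar e f he hf hs)
      · exact h
      · rw [hs] at h
        exact absurd h (hpar f e hf he hs.symm)
    have h2 : hh (ss e) f.2 = hh (ss e) e.1 := by
      rw [h1, hs]
      exact hh_sl hkf.2.2.1.ne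
    have f1 : f.1 = e.1 ∨ f.1 = e.2 := by
      by_contra hc
      push Not at hc
      exact hoff e he f.1 hkf.1 hc.1 hc.2 h1.symm
    have f2 : f.2 = e.1 ∨ f.2 = e.2 := by
      by_contra hc
      push Not at hc
      exact hoff e he f.2 hkf.2.1 hc.1 hc.2 h2
    have he3 := hke.2.2.1
    have hf3 := hkf.2.2.1
    rcases f1 with f1 | f1 <;> rcases f2 with f2 | f2
    · rw [f1, f2] at hf3
      exact absurd hf3 (lt_irrefl _)
    · exact (Prod.ext f1 f2).symm
    · rw [f1, f2] at hf3
      exact absurd hf3 (lt_asymm he3)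
    · rw [f1, f2] at hf3
      exact absurd hf3 (lt_irrefl _)
  let A : Type := {x // x ∈ T}
  let R : Type := {x // x ∈ kes T j}
  have hKE : ∀ r : R, KE T j r.1.1 r.1.2 := fun r => mem_kes.1 r.2
  let S : KLev.Ev A R j (Fintype.card R) :=
    { s := fun a => a.1.1
      t := fun a => a.1.2
      X := fun r => - ss r.1
      a := fun r => ⟨r.1.2, (hKE r).2.1⟩
      b := fun r => ⟨r.1.1, (hKE r).1⟩
      tie := by
        intro r
        have h : hh (ss r.1) r.1.2 = hh (ss r.1) r.1.1 := hh_sl (hKE r).2.2.1.ne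
        unfold hh at h
        show r.1.2.1 * (- ss r.1) + r.1.2.2 = r.1.1.1 * (- ss r.1) + r.1.1.2
        linarith
      hs := fun r => (hKE r).2.2.1
      hne := by
        intro r c h1 h2 h3
        have h4 : c.1 ≠ r.1.2 := fun h => h1 (Subtype.ext h)
        have h5 : c.1 ≠ r.1.1 := fun h => h2 (Subtype.ext h)
        have h : hh (ss r.1) r.1.2 = hh (ss r.1) r.1.1 := hh_sl (hKE r).2.2.1.ne
        have h6 : c.1.1 * (- ss r.1) + c.1.2 = r.1.2.1 * (- ss r.1) + r.1.2.2 := h3
        apply hoff r.1 r.2 c.1 c.2 h5 h4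
        unfold hh at h ⊢
        linarith
      hcard := by
        intro r
        have hb : #(T.filter (fun w => hh (ss r.1) w < hh (ss r.1) r.1.1)) = j := (hKE r).2.2.2
        have h : hh (ss r.1) r.1.2 = hh (ss r.1) r.1.1 := hh_sl (hKE r).2.2.1.ne
        rw [card_filter] at hb
        rw [← Finset.sum_coe_sort T (fun w => if hh (ss r.1) w < hh (ss r.1) r.1.1 then 1 else 0)]
          at hb
        refine Eq.trans (Finset.sum_congr rfl fun c _ => ?_) hb
        have e1 : (c.1.1 * (- ss r.1) + c.1.2 < r.1.2.1 * (- ss r.1) + r.1.2.2) ↔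
            hh (ss r.1) c.1 < hh (ss r.1) r.1.1 := by
          rw [← h]
          unfold hh
          constructor <;> intro h' <;> linarith
        by_cases h7 : hh (ss r.1) c.1 < hh (ss r.1) r.1.1
        · rw [if_pos h7]
          exact if_pos (e1.2 h7)
        · rw [if_neg h7]
          exact if_neg (fun h8 => h7 (e1.1 h8))
      hX := by
        intro r r' h
        exact Subtype.ext (hinj r.1 r.2 r'.1 r'.2 (neg_injective h))
      slot := Fintype.equivFin R
      hslot := fun r r' _ h => (Fintype.equivFin R).injective h }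
  have h := e_ge_ev S (by
    intro a a' h
    exact Subtype.ext (hT.inj a.1 a.2 a'.1 a'.2 h))
  have c1 : Fintype.card R = #(kes T j) := Fintype.card_coe _
  have c2 : Fintype.card A = #T := Fintype.card_coe _
  rw [c1, c2] at h
  exact h

/-- the line `l` crosses the curve `g` at most once -/
def CrossesOnce (g : ℝ → ℝ) (l : ℝ × ℝ) : Prop :=
  Monotone (fun x => SignType.sign (height l x - g x)) ∨
    Antitone (fun x => SignType.sign (height l x - g x))

lemma hh_height' (l : ℝ × ℝ) (σ : ℝ) : hh σ l = height l (-σ) := by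
  rw [← hh_height, neg_neg]

lemma once_ri {g : ℝ → ℝ} {l : ℝ × ℝ} (h : CrossesOnce g l) :
    Ri (fun σ => g (-σ)) l ∨ Fa (fun σ => g (-σ)) l := by
  rcases h with h | h
  · right
    constructor
    · intro σ τ hστ h1
      rw [hh_height'] at h1 ⊢
      have h2 := h (show -τ ≤ -σ by linarith)
      by_contra hc
      have h3 : 0 ≤ SignType.sign (height l (-τ) - g (-τ)) :=
        sign_nonneg_iff.2 (by linarith [not_lt.1 hc])
      have h4 := sign_nonneg_iff.1 (h3.trans h2)
      linarith
    · intro σ τ hστ h1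
      rw [hh_height'] at h1 ⊢
      have h2 := h (show -τ ≤ -σ by linarith)
      by_contra hc
      have h3 : SignType.sign (height l (-σ) - g (-σ)) ≤ 0 :=
        sign_nonpos_iff.2 (by linarith [not_lt.1 hc])
      have h4 := sign_nonpos_iff.1 (h2.trans h3)
      linarith
  · left
    constructor
    · intro σ τ hστ h1
      rw [hh_height'] at h1 ⊢
      have h2 := h (show -τ ≤ -σ by linarith)
      by_contra hc
      have h3 : SignType.sign (height l (-τ) - g (-τ)) ≤ 0 :=
        sign_nonpos_iff.2 (by linarith [not_lt.1 hc])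
      have h4 := sign_nonpos_iff.1 (h2.trans h3)
      linarith
    · intro σ τ hστ h1
      rw [hh_height'] at h1 ⊢
      have h2 := h (show -τ ≤ -σ by linarith)
      by_contra hc
      have h3 : 0 ≤ SignType.sign (height l (-σ) - g (-σ)) :=
        sign_nonneg_iff.2 (by linarith [not_lt.1 hc])
      have h4 := sign_nonneg_iff.1 (h3.trans h2)
      linarith

open scoped Classical in
lemma NN_le_of {g : ℝ → ℝ} {P : Finset (ℝ × ℝ)} {k t : ℕ} {e : Seg} (he : e ∈ kes P k)
    (h1 : k ≤ #(P.filter (fun w => hh (ss e) w < g (ss e))) + t)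
    (h2 : #(P.filter (fun w => hh (ss e) w < g (ss e))) ≤ k + 2 + t) :
    NN g P (ss e) e.1 ≤ t := by
  have hke := mem_kes.1 he
  have hb : #(P.filter (fun w => hh (ss e) w < hh (ss e) e.1)) = k := hke.2.2.2
  have e2 : hh (ss e) e.2 = hh (ss e) e.1 := hh_sl hke.2.2.1.ne
  have hne : e.1 ≠ e.2 := by
    intro h
    have := hke.2.2.1
    rw [h] at this
    exact lt_irrefl _ this
  rcases lt_trichotomy (hh (ss e) e.1) (g (ss e)) with h | h | h
  · have hd : P.filter (fun w => hh (ss e) w < hh (ss e) e.1) ∪ ({e.1, e.2} ∪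
        P.filter (Bt g (ss e) e.1)) ⊆ P.filter (fun w => hh (ss e) w < g (ss e)) := by
      intro w hw
      rw [mem_union, mem_union, mem_filter, mem_insert, mem_singleton, mem_filter] at hw
      rw [mem_filter]
      rcases hw with hw | (rfl | rfl) | hw
      · exact ⟨hw.1, hw.2.trans h⟩
      · exact ⟨hke.1, h⟩
      · exact ⟨hke.2.1, by rw [e2]; exact h⟩
      · rcases hw.2 with h3 | h3
        · exfalso
          linarith [h3.1, h3.2]
        · exact ⟨hw.1, h3.2⟩
    have hc := card_le_card hd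
    rw [card_union_of_disjoint, card_union_of_disjoint, card_pair hne, hb] at hc
    · have : NN g P (ss e) e.1 = #(P.filter (Bt g (ss e) e.1)) := rfl
      omega
    · rw [disjoint_left]
      intro w hw hw'
      rw [mem_insert, mem_singleton] at hw
      rw [mem_filter] at hw'
      rcases hw with rfl | rfl
      · rcases hw'.2 with h3 | h3
        · exact lt_irrefl _ h3.2
        · exact lt_irrefl _ h3.1
      · unfold Bt at hw'
        rw [e2] at hw'
        rcases hw'.2 with h3 | h3
        · exact lt_irrefl _ h3.2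
        · exact lt_irrefl _ h3.1
    · rw [disjoint_left]
      intro w hw hw'
      rw [mem_filter] at hw
      rw [mem_union, mem_insert, mem_singleton, mem_filter] at hw'
      rcases hw' with (rfl | rfl) | hw'
      · exact lt_irrefl _ hw.2
      · rw [e2] at hw
        exact lt_irrefl _ hw.2
      · rcases hw'.2 with h3 | h3
        · linarith [h3.1, h3.2]
        · linarith [h3.1, hw.2]
  · rw [NN_on h]
    exact Nat.zero_le _
  · have hd : P.filter (fun w => hh (ss e) w < g (ss e)) ∪ P.filter (Bt g (ss e) e.1) ⊆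
        P.filter (fun w => hh (ss e) w < hh (ss e) e.1) := by
      intro w hw
      rw [mem_union, mem_filter, mem_filter] at hw
      rw [mem_filter]
      rcases hw with hw | hw
      · exact ⟨hw.1, hw.2.trans h⟩
      · rcases hw.2 with h3 | h3
        · exact ⟨hw.1, h3.2⟩
        · exfalso
          linarith [h3.1, h3.2]
    have hc := card_le_card hd
    rw [card_union_of_disjoint, hb] at hc
    · have : NN g P (ss e) e.1 = #(P.filter (Bt g (ss e) e.1)) := rfl
      omega
    · rw [disjoint_left]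
      intro w hw hw'
      rw [mem_filter] at hw hw'
      rcases hw'.2 with h3 | h3
      · linarith [h3.1, hw.2]
      · linarith [h3.1, h3.2]

section

variable {Γ : Finset (ℝ × ℝ)} {c : ℕ} {g : Fin c → ℝ → ℝ} {k t : ℕ}

lemma near_NN (hn : ∀ x, ∃ i, level Γ (x, g i x) ≤ k + t ∧ k ≤ level Γ (x, g i x) + t) :
    (∀ e ∈ kes Γ k, ∃ i, NN (fun σ => g i (-σ)) Γ (ss e) e.1 ≤ t) ∧
      ∀ e ∈ kes Γ (k - 1), ∃ i, NN (fun σ => g i (-σ)) Γ (ss e) e.1 ≤ t := by
  classical
  have hl : ∀ (i : Fin c) (σ : ℝ),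
      #(Γ.filter (fun w => hh σ w < g i (-σ))) = level Γ (-σ, g i (-σ)) := by
    intro i σ
    unfold level
    congr 1
    apply filter_congr
    intro w _
    rw [hh_height']
  constructor
  · intro e he
    obtain ⟨i, h1⟩ := hn (-(ss e))
    refine ⟨i, NN_le_of he ?_ ?_⟩
    · rw [hl]
      exact h1.2
    · rw [hl]
      omega
  · intro e he
    obtain ⟨i, h1⟩ := hn (-(ss e))
    refine ⟨i, NN_le_of he ?_ ?_⟩
    · rw [hl]
      omega
    · rw [hl]
      omega

/-- the reduction to few lines -/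
theorem level_red (hΓ : SimpleFam Γ) (hg : ∀ i, ∀ l ∈ Γ, CrossesOnce (g i) l)
    (hn : ∀ x, ∃ i, level Γ (x, g i x) ≤ k + t ∧ k ≤ level Γ (x, g i x) + t) {E : ℕ}
    (hE : ∀ m ≤ 10 * (t + 2), ∀ j < m, e j m ≤ E) :
    (complexity Γ k : ℝ) ≤ 2 * c * (98 * Γ.card / ((t : ℝ) + 2) + 1) * E := by
  have hG := gp_of hΓ
  obtain ⟨n1, n2⟩ := near_NN hn
  have hE' : ∀ T ⊆ Γ, #T ≤ 10 * (t + 2) → ∀ j, #(kes T j) ≤ E := by
    intro T hT hc j
    rcases (kes T j).eq_empty_or_nonempty with h | ⟨e, he⟩
    · rw [h, card_empty]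
      exact Nat.zero_le _
    · have hke := mem_kes.1 he
      have hba := bel_abv (hG.mono hT) hke.1 hke.2.1 hke.2.2.1
      rw [hke.2.2.2] at hba
      exact (kes_le_e (hG.mono hT) j).trans (hE _ hc j (by omega))
  have h1 := kes_red_fam (G := fun i σ => g i (-σ)) hG (fun i p hp => once_ri (hg i p hp)) n1 hE'
  have h2 := kes_red_fam (G := fun i σ => g i (-σ)) hG (fun i p hp => once_ri (hg i p hp)) n2 hE'
  have h3 := complexity_le_kes hΓ k
  have h4 := slabs_le #Γ t
  set N := 98 * (t + 2) * #Γ / (t + 2) ^ 2 + 1 with hN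
  have h5 : complexity Γ k ≤ 2 * (c * (N * E)) := by omega
  have h6 : (complexity Γ k : ℝ) ≤ 2 * (c * ((N : ℝ) * E)) := by exact_mod_cast h5
  have h7 : (c : ℝ) * ((N : ℝ) * E) ≤ c * ((98 * Γ.card / ((t : ℝ) + 2) + 1) * E) :=
    mul_le_mul_of_nonneg_left (mul_le_mul_of_nonneg_right h4 (Nat.cast_nonneg _))
      (Nat.cast_nonneg _)
  linarith

/-- the explicit bound -/
theorem level_le (hΓ : SimpleFam Γ) (hg : ∀ i, ∀ l ∈ Γ, CrossesOnce (g i) l)
    (hn : ∀ x, ∃ i, level Γ (x, g i x) ≤ k + t ∧ k ≤ level Γ (x, g i x) + t) :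
    (complexity Γ k : ℝ) ≤ 40000 * c * Γ.card * ((t : ℝ) + 1) ^ ((1 : ℝ) / 3) := by
  have hG := gp_of hΓ
  obtain ⟨n1, n2⟩ := near_NN hn
  have h1 := kes_main_fam (G := fun i σ => g i (-σ)) hG (fun i p hp => once_ri (hg i p hp)) n1
  have h2 := kes_main_fam (G := fun i σ => g i (-σ)) hG (fun i p hp => once_ri (hg i p hp)) n2
  have h3 : (complexity Γ k : ℝ) ≤ #(kes Γ k) + #(kes Γ (k - 1)) := by
    exact_mod_cast complexity_le_kes hΓ k
  linarith

end

end Pool.Agent.U272.DP
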