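import Pool.Agent.U272.DP.Lev

/-!
# Vertices of a level close to a curve, local form
-/

set_option autoImplicit false

namespace Pool.Agent.U272.DP

open Finset Pool.Agent.TH124.KE KLev.Levels

open Pool.Agent.U272.AS (SimpleFam gp_of hh_height)

section kinetic

variable {g : ℝ → ℝ} {P T : Finset (ℝ × ℝ)}

lemma NN_mono (hTP : T ⊆ P) (σ : ℝ) (p : ℝ × ℝ) : NN g T σ p ≤ NN g P σ p := by
  classical
  unfold NN
  exact card_le_card (filter_subset_filter _ hTP)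

/-- only the points which are not on the same side of all edges matter -/
lemma kes_sub {k : ℕ} {K : Finset Seg} (hK : K ⊆ kes P k) (hTP : T ⊆ P)
    (hT : ∀ w ∈ P, w ∉ T → (∀ e ∈ K, hh (ss e) w < hh (ss e) e.1) ∨
      ∀ e ∈ K, hh (ss e) e.1 < hh (ss e) w) :
    ∃ j, K ⊆ kes T j := by
  classical
  set c := #((P \ T).filter (fun w => ∀ e ∈ K, hh (ss e) w < hh (ss e) e.1)) with hc
  refine ⟨k - c, ?_⟩
  intro e he
  have hke := mem_kes.1 (hK he)
  set σ := ss e with hσ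
  have e2 : hh σ e.2 = hh σ e.1 := hh_sl hke.2.2.1.ne
  have hmem : ∀ z ∈ P, hh σ z = hh σ e.1 → z ∈ T := by
    intro z hz hzV
    by_contra hzT
    rcases hT z hz hzT with h | h
    · have := h e he
      rw [← hσ] at this
      linarith
    · have := h e he
      rw [← hσ] at this
      linarith
  have hcmp : ∀ w ∈ P \ T, (hh σ w < hh σ e.1 ↔ ∀ e ∈ K, hh (ss e) w < hh (ss e) e.1) := by
    intro w hw
    rw [mem_sdiff] at hw
    refine ⟨fun h => ?_, fun h => h e he⟩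
    rcases hT w hw.1 hw.2 with h1 | h1
    · exact h1
    · have := h1 e he
      rw [← hσ] at this
      linarith
  have hbel : bel P σ e.1 = bel T σ e.1 + c := by
    unfold bel
    rw [hc, ← filter_congr hcmp]
    rw [← card_union_of_disjoint]
    · congr 1
      ext z
      simp only [mem_filter, mem_union, mem_sdiff]
      constructor
      · rintro ⟨h1, h2⟩
        by_cases h3 : z ∈ T
        · exact Or.inl ⟨h3, h2⟩
        · exact Or.inr ⟨⟨h1, h3⟩, h2⟩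
      · rintro (⟨h1, h2⟩ | ⟨⟨h1, -⟩, h2⟩)
        · exact ⟨hTP h1, h2⟩
        · exact ⟨h1, h2⟩
    · rw [disjoint_left]
      intro z h1 h2
      exact (mem_sdiff.1 (mem_filter.1 h2).1).2 (mem_filter.1 h1).1
  rw [mem_kes]
  refine ⟨hmem _ hke.1 rfl, hmem _ hke.2.1 e2, hke.2.2.1, ?_⟩
  have h5 : bel P σ e.1 = k := hke.2.2.2
  show bel T σ e.1 = k - c
  omega

/-- the local bound -/
theorem kes_loc (hP : GP P) (h1 : ∀ p ∈ P, Ri g p ∨ Fa g p) {k t : ℕ} {K : Finset Seg}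
    (hK : K ⊆ kes P k) (hN : ∀ e ∈ K, NN g P (ss e) e.1 ≤ t) (hTP : T ⊆ P)
    (hT : ∀ w ∈ P, w ∉ T → (∀ e ∈ K, hh (ss e) w < hh (ss e) e.1) ∨
      ∀ e ∈ K, hh (ss e) e.1 < hh (ss e) w) :
    (#K : ℝ) ≤ 20000 * #T * ((t : ℝ) + 1) ^ (1 / 3 : ℝ) := by
  obtain ⟨j, hj⟩ := kes_sub hK hTP hT
  exact kes_main (hP.mono hTP) (fun p hp => h1 p (hTP hp)) hj (fun e he =>
    (NN_mono hTP _ _).trans (hN e he))

/-- the local reduction -/
theorem kes_loc_red (hP : GP P) (h1 : ∀ p ∈ P, Ri g p ∨ Fa g p) {k t E : ℕ} {K : Finset Seg}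
    (hK : K ⊆ kes P k) (hN : ∀ e ∈ K, NN g P (ss e) e.1 ≤ t) (hTP : T ⊆ P)
    (hT : ∀ w ∈ P, w ∉ T → (∀ e ∈ K, hh (ss e) w < hh (ss e) e.1) ∨
      ∀ e ∈ K, hh (ss e) e.1 < hh (ss e) w)
    (hE : ∀ S ⊆ P, #S ≤ 10 * (t + 2) → ∀ j, #(kes S j) ≤ E) :
    #K ≤ (98 * (t + 2) * #T / (t + 2) ^ 2 + 1) * E := by
  obtain ⟨j, hj⟩ := kes_sub hK hTP hT
  exact kes_red (hP.mono hTP) (fun p hp => h1 p (hTP hp)) hj (fun e he =>
    (NN_mono hTP _ _).trans (hN e he)) (fun S hS => hE S (hS.trans hTP))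

end kinetic

/-- the number of lines strictly between the point `p` and the curve `g` -/
noncomputable def between (Γ : Finset (ℝ × ℝ)) (g : ℝ → ℝ) (p : ℝ × ℝ) : ℕ :=
  (Γ.filter (fun l => (p.2 < height l p.1 ∧ height l p.1 < g p.1) ∨
    (g p.1 < height l p.1 ∧ height l p.1 < p.2))).card

open scoped Classical in
/-- the lines of `Γ` which are neither above all points of `V` nor below all points of `V` -/
noncomputable def active (Γ : Finset (ℝ × ℝ)) (V : Set (ℝ × ℝ)) : Finset (ℝ × ℝ) :=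
  Γ.filter (fun l => (∃ v ∈ V, height l v.1 ≤ v.2) ∧ ∃ v ∈ V, v.2 ≤ height l v.1)

lemma between_NN (Γ : Finset (ℝ × ℝ)) (g : ℝ → ℝ) (l : ℝ × ℝ) (x : ℝ) :
    between Γ g (x, height l x) = NN (fun σ => g (-σ)) Γ (-x) l := by
  classical
  unfold between NN
  congr 1
  apply filter_congr
  intro w _
  unfold Bt
  simp only [hh_height', neg_neg]
  exact or_comm

/-- vertices of the level are edges -/
theorem vertices_le {Γ : Finset (ℝ × ℝ)} (h : SimpleFam Γ) (k : ℕ) (Q : ℝ × ℝ → Prop)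
    (K₁ K₂ : Finset Seg) (hK₁ : ∀ e ∈ kes Γ k, Q (-ss e, height e.1 (-ss e)) → e ∈ K₁)
    (hK₂ : ∀ e ∈ kes Γ (k - 1), Q (-ss e, height e.1 (-ss e)) → e ∈ K₂) :
    {v | IsVertex Γ k v ∧ Q v}.ncard ≤ K₁.card + K₂.card := by
  classical
  refine le_trans ?_ (card_union_le _ _)
  have hch : ∀ p : ℝ × ℝ, ∃ e : Seg, IsVertex Γ k p → e ∈ kes Γ k ∪ kes Γ (k - 1) ∧
      e.1 ∈ Γ ∧ e.2 ∈ Γ ∧ e.1.1 < e.2.1 ∧ height e.1 p.1 = p.2 ∧ height e.2 p.1 = p.2 ∧
        ss e = -p.1 := by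
    intro p
    by_cases hp : IsVertex Γ k p
    swap
    · exact ⟨((0, 0), (0, 0)), fun h => absurd h hp⟩
    obtain ⟨h1, h2⟩ := Pool.Agent.U272.AS.kLevel_card' hp
    obtain ⟨l, hl, m, hm, hlm, hlp, hmp, -⟩ := hp
    obtain ⟨u, v, hu, hv, huv, hup, hvp⟩ : ∃ u v, u ∈ Γ ∧ v ∈ Γ ∧ u.1 < v.1 ∧
        height u p.1 = p.2 ∧ height v p.1 = p.2 := by
      rcases lt_or_gt_of_ne (h.1 l hl m hm hlm) with h3 | h3
      · exact ⟨l, m, hl, hm, h3, hlp, hmp⟩
      · exact ⟨m, l, hm, hl, h3, hmp, hlp⟩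
    have hsl : sl u v = -p.1 := by
      apply (hh_eq huv.ne _).1
      rw [hh_height, hh_height, hup, hvp]
    have hlev : bel Γ (sl u v) u = level Γ p := by
      unfold bel level
      rw [hsl]
      congr 1
      ext j
      simp only [mem_filter]
      rw [hh_height, hh_height, hup]
    have h3 : (Γ.filter (fun l => height l p.1 ≤ p.2)).card ≤ level Γ p + 2 := by
      refine le_trans ?_ (Nat.add_le_add_left (Pool.Agent.U272.AS.card_on h p) _)
      unfold level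
      refine le_trans (card_le_card ?_) (card_union_le _ _)
      intro j hj
      rw [mem_filter] at hj
      rw [mem_union, mem_filter, mem_filter]
      rcases lt_or_eq_of_le hj.2 with h4 | h4
      · exact Or.inl ⟨hj.1, h4⟩
      · exact Or.inr ⟨hj.1, h4⟩
    refine ⟨(u, v), fun _ => ⟨?_, hu, hv, huv, hup, hvp, hsl⟩⟩
    rw [mem_union, mem_kes, mem_kes]
    have h4 : level Γ p = k ∨ level Γ p = k - 1 := by omega
    rcases h4 with h4 | h4
    · exact Or.inl ⟨hu, hv, huv, hlev.trans h4⟩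
    · exact Or.inr ⟨hu, hv, huv, hlev.trans h4⟩
  choose e he using hch
  have hfin : {v | IsVertex Γ k v ∧ Q v}.Finite := (vertices_finite Γ k).subset fun v hv => hv.1
  rw [Set.ncard_eq_toFinset_card _ hfin]
  apply card_le_card_of_injOn e
  · intro p hp
    rw [Set.Finite.coe_toFinset] at hp
    obtain ⟨h1, -, -, -, h2, -, h3⟩ := he p hp.1
    have h4 : Q (-ss (e p), height (e p).1 (-ss (e p))) := by
      rw [h3, neg_neg, h2]
      exact hp.2
    rw [mem_union] at h1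
    rw [mem_coe, mem_union]
    exact h1.elim (fun h => Or.inl (hK₁ _ h h4)) (fun h => Or.inr (hK₂ _ h h4))
  · intro p hp q hq hpq
    rw [Set.Finite.coe_toFinset] at hp hq
    obtain ⟨-, -, -, h1, h2, h3, -⟩ := he p hp.1
    obtain ⟨-, -, -, -, h5, h6, -⟩ := he q hq.1
    rw [← hpq] at h5 h6
    unfold height at h2 h3 h5 h6
    have h7 : ((e p).1.1 - (e p).2.1) * (p.1 - q.1) = 0 := by linarith
    have h8 : p.1 = q.1 := by
      rcases mul_eq_zero.1 h7 with h9 | h9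
      · exact absurd (sub_eq_zero.1 h9) h1.ne
      · exact sub_eq_zero.1 h9
    refine Prod.ext h8 ?_
    rw [← h2, ← h5, h8]

section

variable {Γ : Finset (ℝ × ℝ)} {g : ℝ → ℝ} {V : Set (ℝ × ℝ)} {k t : ℕ}

/-- the edges that belong to the vertices in `V` -/
lemma loc_core (hΓ : SimpleFam Γ) (hV : ∀ v ∈ V, IsVertex Γ k v)
    (hb : ∀ v ∈ V, between Γ g v ≤ t) :
    ∃ K₁ K₂ : Finset Seg, V.ncard ≤ K₁.card + K₂.card ∧ K₁ ⊆ kes Γ k ∧ K₂ ⊆ kes Γ (k - 1) ∧
      (∀ e ∈ K₁, NN (fun σ => g (-σ)) Γ (ss e) e.1 ≤ t) ∧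
      (∀ e ∈ K₂, NN (fun σ => g (-σ)) Γ (ss e) e.1 ≤ t) ∧
      (∀ w ∈ Γ, w ∉ active Γ V → (∀ e ∈ K₁, hh (ss e) w < hh (ss e) e.1) ∨
        ∀ e ∈ K₁, hh (ss e) e.1 < hh (ss e) w) ∧
      (∀ w ∈ Γ, w ∉ active Γ V → (∀ e ∈ K₂, hh (ss e) w < hh (ss e) e.1) ∨
        ∀ e ∈ K₂, hh (ss e) e.1 < hh (ss e) w) := by
  classical
  have hN : ∀ e : Seg, (-ss e, height e.1 (-ss e)) ∈ V →
      NN (fun σ => g (-σ)) Γ (ss e) e.1 ≤ t := by
    intro e he
    have := hb _ he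
    rw [between_NN, neg_neg] at this
    exact this
  have hW : ∀ w ∈ Γ, w ∉ active Γ V →
      (∀ e : Seg, (-ss e, height e.1 (-ss e)) ∈ V → hh (ss e) w < hh (ss e) e.1) ∨
      ∀ e : Seg, (-ss e, height e.1 (-ss e)) ∈ V → hh (ss e) e.1 < hh (ss e) w := by
    intro w hw hn
    have h1 : (∀ v ∈ V, v.2 < height w v.1) ∨ ∀ v ∈ V, height w v.1 < v.2 := by
      by_contra hcon
      push Not at hcon
      apply hn
      unfold active
      rw [mem_filter]
      exact ⟨hw, hcon⟩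
    rcases h1 with h1 | h1
    · right
      intro e he
      have := h1 _ he
      rw [hh_height', hh_height']
      exact this
    · left
      intro e he
      have := h1 _ he
      rw [hh_height', hh_height']
      exact this
  refine ⟨(kes Γ k).filter (fun e => (-ss e, height e.1 (-ss e)) ∈ V),
    (kes Γ (k - 1)).filter (fun e => (-ss e, height e.1 (-ss e)) ∈ V), ?_, filter_subset _ _,
    filter_subset _ _, fun e he => hN e (mem_filter.1 he).2, fun e he => hN e (mem_filter.1 he).2,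
    fun w hw hn => ?_, fun w hw hn => ?_⟩
  · have h1 := vertices_le hΓ k (fun v => v ∈ V)
      ((kes Γ k).filter (fun e => (-ss e, height e.1 (-ss e)) ∈ V))
      ((kes Γ (k - 1)).filter (fun e => (-ss e, height e.1 (-ss e)) ∈ V))
      (fun e he h => mem_filter.2 ⟨he, h⟩) (fun e he h => mem_filter.2 ⟨he, h⟩)
    have h2 : {v | IsVertex Γ k v ∧ v ∈ V} = V := by
      ext v
      exact ⟨fun h => h.2, fun h => ⟨hV v h, h⟩⟩
    rw [h2] at h1
    exact h1
  · exact (hW w hw hn).imp (fun h e he => h e (mem_filter.1 he).2)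
      (fun h e he => h e (mem_filter.1 he).2)
  · exact (hW w hw hn).imp (fun h e he => h e (mem_filter.1 he).2)
      (fun h e he => h e (mem_filter.1 he).2)

/-- **vertices of a level close to a curve** -/
theorem loc_le (hΓ : SimpleFam Γ) (hg : ∀ l ∈ Γ, CrossesOnce g l)
    (hV : ∀ v ∈ V, IsVertex Γ k v) (hb : ∀ v ∈ V, between Γ g v ≤ t) :
    (V.ncard : ℝ) ≤ 40000 * (active Γ V).card * ((t : ℝ) + 1) ^ ((1 : ℝ) / 3) := by
  classical
  obtain ⟨K₁, K₂, h1, h2, h3, h4, h5, h6, h7⟩ := loc_core hΓ hV hb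
  have hsub : active Γ V ⊆ Γ := filter_subset _ _
  have a1 := kes_loc (gp_of hΓ) (fun p hp => once_ri (hg p hp)) h2 h4 hsub h6
  have a2 := kes_loc (gp_of hΓ) (fun p hp => once_ri (hg p hp)) h3 h5 hsub h7
  have a3 : (V.ncard : ℝ) ≤ K₁.card + K₂.card := by exact_mod_cast h1
  linarith

/-- the reduction to few lines -/
theorem loc_red (hΓ : SimpleFam Γ) (hg : ∀ l ∈ Γ, CrossesOnce g l)
    (hV : ∀ v ∈ V, IsVertex Γ k v) (hb : ∀ v ∈ V, between Γ g v ≤ t) {E : ℕ}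
    (hE : ∀ m ≤ 10 * (t + 2), ∀ j < m, e j m ≤ E) :
    (V.ncard : ℝ) ≤ 2 * (98 * (active Γ V).card / ((t : ℝ) + 2) + 1) * E := by
  classical
  have hG := gp_of hΓ
  have hE' : ∀ T ⊆ Γ, #T ≤ 10 * (t + 2) → ∀ j, #(kes T j) ≤ E := by
    intro T hT hc j
    rcases (kes T j).eq_empty_or_nonempty with h | ⟨e, he⟩
    · rw [h, card_empty]
      exact Nat.zero_le _
    · have hke := mem_kes.1 he
      have hba := bel_abv (hG.mono hT) hke.1 hke.2.1 hke.2.2.1
      rw [hke.2.2.2] at hba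
      exact (kes_le_e (hG.mono hT) j).trans (hE _ hc j (by omega))
  obtain ⟨K₁, K₂, h1, h2, h3, h4, h5, h6, h7⟩ := loc_core hΓ hV hb
  have hsub : active Γ V ⊆ Γ := filter_subset _ _
  have a1 := kes_loc_red hG (fun p hp => once_ri (hg p hp)) h2 h4 hsub h6 hE'
  have a2 := kes_loc_red hG (fun p hp => once_ri (hg p hp)) h3 h5 hsub h7 hE'
  have h8 := slabs_le #(active Γ V) t
  set N := 98 * (t + 2) * #(active Γ V) / (t + 2) ^ 2 + 1 with hN
  have h9 : V.ncard ≤ 2 * (N * E) := by omega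
  have h10 : (V.ncard : ℝ) ≤ 2 * ((N : ℝ) * E) := by exact_mod_cast h9
  have h11 : (N : ℝ) * E ≤ (98 * (active Γ V).card / ((t : ℝ) + 2) + 1) * E :=
    mul_le_mul_of_nonneg_right h8 (Nat.cast_nonneg _)
  linarith

end

end Pool.Agent.U272.DP
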