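import Pool.Agent.U272.DP.Bis

/-!
# Bisectors close to a point, local form
-/

set_option autoImplicit false

namespace Pool.Agent.U272.DP

open Finset Pool.Agent.TH124.KE Pool.Agent.R117.KR

open Pool.Agent.U272.AS (shr shr_inj hh_shr gp_shr edge_of lines_le)

/-- `p` is strictly between the line `L` and the parallel to `L` through `o` -/
def InStrip (o : ℝ × ℝ) (L : Set (ℝ × ℝ)) (p : ℝ × ℝ) : Prop :=
  ∃ a b c : ℝ, (a ≠ 0 ∨ b ≠ 0) ∧ L = Line a b c ∧
    c < a * p.1 + b * p.2 ∧ a * p.1 + b * p.2 < a * o.1 + b * o.2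

open scoped Classical in
/-- the number of points of `P` strictly between the line `L` and its parallel through `o` -/
noncomputable def strip (P : Finset (ℝ × ℝ)) (o : ℝ × ℝ) (L : Set (ℝ × ℝ)) : ℕ :=
  (P.filter (InStrip o L)).card

lemma line_neg (a b c : ℝ) : Line (-a) (-b) (-c) = Line a b c := by
  ext p
  show -a * p.1 + -b * p.2 = -c ↔ a * p.1 + b * p.2 = c
  constructor <;> intro h <;> linarith

lemma inStrip_of {o p : ℝ × ℝ} {a b c : ℝ} (hab : a ≠ 0 ∨ b ≠ 0)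
    (h : (c < a * p.1 + b * p.2 ∧ a * p.1 + b * p.2 < a * o.1 + b * o.2) ∨
      (a * o.1 + b * o.2 < a * p.1 + b * p.2 ∧ a * p.1 + b * p.2 < c)) :
    InStrip o (Line a b c) p := by
  rcases h with h | h
  · exact ⟨a, b, c, hab, rfl, h.1, h.2⟩
  · refine ⟨-a, -b, -c, ?_, (line_neg a b c).symm, by linarith [h.2], by linarith [h.1]⟩
    exact hab.imp (fun h => neg_ne_zero.2 h) (fun h => neg_ne_zero.2 h)

section

variable {P : Finset (ℝ × ℝ)} {o : ℝ × ℝ} {t : ℕ}

lemma strip_NN {a b c v : ℝ} (hab : a ≠ 0 ∨ b ≠ 0) (hB : b - a * v ≠ 0) {e : Seg}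
    (he : ss e = -a / (b - a * v)) {p : ℝ × ℝ} (hp : p ∈ Line a b c) (hep : e.1 = shr v p)
    (hs : strip P o (Line a b c) ≤ t) :
    NN (fun σ => hh σ (shr v o)) (P.image (shr v)) (ss e) e.1 ≤ t := by
  classical
  refine le_trans ?_ hs
  unfold NN strip
  rw [filter_image, card_image_of_injective _ (shr_inj v)]
  apply card_le_card
  intro z hz
  rw [mem_filter] at hz ⊢
  refine ⟨hz.1, inStrip_of hab ?_⟩
  have h := hz.2
  unfold Bt at h
  rw [hep, he] at h
  have e1 : a * p.1 + b * p.2 = c := hp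
  simp only [hh_shr hB, e1] at h
  rcases lt_or_gt_of_ne hB with hB' | hB'
  · rw [div_lt_div_right_of_neg hB', div_lt_div_right_of_neg hB',
      div_lt_div_right_of_neg hB', div_lt_div_right_of_neg hB'] at h
    rcases h with h | h
    · exact Or.inl ⟨h.2, h.1⟩
    · exact Or.inr ⟨h.2, h.1⟩
  · rw [div_lt_div_iff_of_pos_right hB', div_lt_div_iff_of_pos_right hB',
      div_lt_div_iff_of_pos_right hB', div_lt_div_iff_of_pos_right hB'] at h
    rcases h with h | h
    · exact Or.inr h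
    · exact Or.inl h

/-- bisectors close to a point are edges close to a point -/
theorem bis_loc_core (hP : KLev.Halving.GeneralPosition P) (o : ℝ × ℝ) (t : ℕ) :
    ∃ k : ℕ, ∃ Q : Finset (ℝ × ℝ), ∃ o' : ℝ × ℝ, ∃ K : Finset Seg, GP Q ∧
      #Q = P.card ∧ K ⊆ kes Q k ∧ {L | IsBisector P L ∧ strip P o L ≤ t}.ncard ≤ #K ∧
      ∀ e ∈ K, NN (fun σ => hh σ o') Q (ss e) e.1 ≤ t := by
  classical
  obtain ⟨v, hs⟩ := Pool.Agent.U272.PS.exists_s P
  have hcard : #(P.image (shr v)) = P.card := card_image_of_injective _ (shr_inj v)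
  refine ⟨P.card / 2 - 1, P.image (shr v), shr v o, (kes (P.image (shr v)) (P.card / 2 - 1)).filter
    (fun e => NN (fun σ => hh σ (shr v o)) (P.image (shr v)) (ss e) e.1 ≤ t), gp_shr hP hs, hcard,
    filter_subset _ _, ?_, fun e he => (mem_filter.1 he).2⟩
  by_cases hfin : {L | IsBisector P L ∧ strip P o L ≤ t}.Finite
  swap
  · rw [Set.Infinite.ncard hfin]
    exact Nat.zero_le _
  rw [Set.ncard_eq_toFinset_card _ hfin]
  apply lines_le hP hs
  intro L hL
  rw [Set.Finite.mem_toFinset] at hL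
  obtain ⟨⟨a, b, c', hab, rfl, ⟨p, hp, q, hq, hpq, hpL, hqL⟩, e1, e2⟩, hst⟩ := hL
  obtain ⟨p', q', hp', hq', hpq', hp'L, hq'L, h1, h2⟩ := edge_of hP hs hab hp hq hpq hpL hqL
  rw [e1, e2] at h1 h2
  have hke : KE (P.image (shr v)) (P.card / 2 - 1) (shr v p') (shr v q') := h1.elim id id
  refine ⟨a, b, c', hab, rfl, p', hp', q', hq', hpq', hp'L, hq'L, ?_⟩
  rw [mem_filter, mem_kes]
  have hB : b - a * v ≠ 0 := Pool.Agent.U272.PS.slope_ne hab (hs p hp q hq hpq) hpL hqL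
  refine ⟨hke, strip_NN hab hB ?_ hp'L rfl hst⟩
  show sl (shr v p') (shr v q') = -a / (b - a * v)
  apply (hh_eq hke.2.2.1.ne _).1
  have f1 : a * p'.1 + b * p'.2 = c' := hp'L
  have f2 : a * q'.1 + b * q'.2 = c' := hq'L
  rw [hh_shr hB, hh_shr hB, f1, f2]

/-- **bisectors close to a point** -/
theorem bis_loc_le (hP : KLev.Halving.GeneralPosition P) (o : ℝ × ℝ) (t : ℕ) :
    ({L | IsBisector P L ∧ strip P o L ≤ t}.ncard : ℝ) ≤
      20000 * P.card * ((t : ℝ) + 1) ^ ((1 : ℝ) / 3) := by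
  obtain ⟨k, Q, o', K, hG, hc, hK, h1, h2⟩ := bis_loc_core hP o t
  have h3 := kes_main (g := fun σ => hh σ o') hG (fun p _ => line_once o' p) hK h2
  rw [hc] at h3
  have h4 : ({L | IsBisector P L ∧ strip P o L ≤ t}.ncard : ℝ) ≤ #K := by exact_mod_cast h1
  exact h4.trans h3

/-- the reduction to few points -/
theorem bis_loc_red (hP : KLev.Halving.GeneralPosition P) (o : ℝ × ℝ) (t : ℕ) {E : ℕ}
    (hE : ∀ m ≤ 20 * (t + 2), KLev.Halving.f m ≤ E) :
    ({L | IsBisector P L ∧ strip P o L ≤ t}.ncard : ℝ) ≤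
      (98 * P.card / ((t : ℝ) + 2) + 1) * E := by
  obtain ⟨k, Q, o', K, hG, hc, hK, h1, h2⟩ := bis_loc_core hP o t
  have h3 := kes_red (g := fun σ => hh σ o') hG (fun p _ => line_once o' p) (E := E) hK h2 (by
    intro T hT hTc j
    obtain ⟨m, hm, h4⟩ := kes_le_f (hG.mono hT) j
    exact h4.trans (hE m (by omega)))
  have h4 := slabs_le #Q t
  set N := 98 * (t + 2) * #Q / (t + 2) ^ 2 + 1 with hN
  have h5 : ({L | IsBisector P L ∧ strip P o L ≤ t}.ncard : ℝ) ≤ (N : ℝ) * E := by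
    exact_mod_cast h1.trans h3
  rw [← hc]
  exact h5.trans (mul_le_mul_of_nonneg_right h4 (Nat.cast_nonneg _))

end

end Pool.Agent.U272.DP
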