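import Pool.Agent.U272.DP.Slab

/-!
# `k`-edges whose lines are close to a curve
-/

set_option autoImplicit false

namespace Pool.Agent.U272.DP

open Finset Pool.Agent.TH124.KE

variable {g : ℝ → ℝ} {P : Finset (ℝ × ℝ)}

open scoped Classical in
/-- the rank of a direction -/
noncomputable def rk (g : ℝ → ℝ) (P : Finset (ℝ × ℝ)) (J : ℕ) (σ : ℝ) : ℕ :=
  #((EV g P (3 * J + 2)).filter (fun e => ss e ≤ σ)) + (J + 2) * ∑ p ∈ P, cc g p σ

lemma rk_le (hP : GP P) (h1 : ∀ p ∈ P, Ri g p ∨ Fa g p) (J : ℕ) (σ : ℝ) :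
    rk g P J σ ≤ 98 * (J + 2) * #P := by
  classical
  unfold rk
  have h2 := (card_le_card (filter_subset (fun e => ss e ≤ σ) (EV g P (3 * J + 2)))).trans
    (EV_le hP h1 (3 * J + 2))
  have h3 : ∑ p ∈ P, cc g p σ ≤ 2 * #P := by
    calc ∑ p ∈ P, cc g p σ ≤ ∑ p ∈ P, 2 := sum_le_sum fun p _ => cc_le p σ
      _ = 2 * #P := by rw [sum_const, smul_eq_mul, mul_comm]
  have h4 : (J + 2) * ∑ p ∈ P, cc g p σ ≤ (J + 2) * (2 * #P) := Nat.mul_le_mul_left _ h3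
  have h5 : 32 * (3 * J + 2 + 1) * #P ≤ 96 * (J + 2) * #P := Nat.mul_le_mul_right _ (by omega)
  calc _ ≤ 96 * (J + 2) * #P + (J + 2) * (2 * #P) := Nat.add_le_add (h2.trans h5) h4
    _ = 98 * (J + 2) * #P := by ring

open scoped Classical in
lemma rk_diff (h1 : ∀ p ∈ P, Ri g p ∨ Fa g p) {J : ℕ} {σ₀ σ₁ : ℝ} (h : σ₀ ≤ σ₁)
    {X : Finset (ℝ × ℝ)} (hXP : X ⊆ P) (hX : ∀ p ∈ X, cc g p σ₀ < cc g p σ₁) :
    rk g P J σ₀ + #((EV g P (3 * J + 2)).filter (fun e => σ₀ < ss e ∧ ss e ≤ σ₁)) +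
      (J + 2) * #X ≤ rk g P J σ₁ := by
  unfold rk
  have h2 : #((EV g P (3 * J + 2)).filter (fun e => σ₀ < ss e ∧ ss e ≤ σ₁)) +
      #((EV g P (3 * J + 2)).filter (fun e => ss e ≤ σ₀)) =
      #((EV g P (3 * J + 2)).filter (fun e => ss e ≤ σ₁)) := by
    rw [← card_union_of_disjoint]
    · congr 1
      ext e
      simp only [mem_union, mem_filter]
      constructor
      · rintro (⟨h1, h2, h3⟩ | ⟨h1, h2⟩)
        · exact ⟨h1, h3⟩
        · exact ⟨h1, h2.trans h⟩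
      · rintro ⟨h1, h2⟩
        rcases le_or_gt (ss e) σ₀ with h3 | h3
        · exact Or.inr ⟨h1, h3⟩
        · exact Or.inl ⟨h1, h3, h2⟩
    · rw [disjoint_filter]
      rintro e _ ⟨h1, -⟩ h2
      linarith
  have h3 : ∑ p ∈ P, cc g p σ₀ + #X ≤ ∑ p ∈ P, cc g p σ₁ := by
    have e1 : #X = ∑ p ∈ P, if p ∈ X then 1 else 0 := by
      rw [← card_filter]
      congr 1
      ext p
      rw [mem_filter]
      exact ⟨fun hp => ⟨hXP hp, hp⟩, fun hp => hp.2⟩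
    rw [e1, ← sum_add_distrib]
    apply sum_le_sum
    intro p hp
    by_cases hpX : p ∈ X
    · rw [if_pos hpX]
      exact hX p hpX
    · rw [if_neg hpX, add_zero]
      exact cc_mono (h1 p hp) h
  have h4 : (J + 2) * (∑ p ∈ P, cc g p σ₀ + #X) ≤ (J + 2) * ∑ p ∈ P, cc g p σ₁ :=
    Nat.mul_le_mul_left _ h3
  rw [Nat.mul_add] at h4
  omega

lemma rk_mono (h1 : ∀ p ∈ P, Ri g p ∨ Fa g p) {J : ℕ} {σ₀ σ₁ : ℝ} (h : σ₀ ≤ σ₁) :
    rk g P J σ₀ ≤ rk g P J σ₁ := by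
  classical
  have := rk_diff h1 (J := J) h (empty_subset P) (fun p hp => absurd hp (notMem_empty _))
  omega

/-- the slab number `i` -/
def sb (g : ℝ → ℝ) (P : Finset (ℝ × ℝ)) (J i : ℕ) : Set ℝ := {σ | rk g P J σ / (J + 2) ^ 2 = i}

lemma sb_lt {J i : ℕ} {σ₀ σ₁ : ℝ} (h0 : σ₀ ∈ sb g P J i) (h1 : σ₁ ∈ sb g P J i) :
    rk g P J σ₁ < rk g P J σ₀ + (J + 2) ^ 2 := by
  have hm : 0 < (J + 2) ^ 2 := by positivity
  have h3 : rk g P J σ₀ / (J + 2) ^ 2 = i := h0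
  have h4 : rk g P J σ₁ / (J + 2) ^ 2 = i := h1
  have h5 := Nat.div_add_mod (rk g P J σ₀) ((J + 2) ^ 2)
  have h6 := Nat.div_add_mod (rk g P J σ₁) ((J + 2) ^ 2)
  have h7 := Nat.mod_lt (rk g P J σ₁) hm
  rw [h3] at h5
  rw [h4] at h6
  generalize (J + 2) ^ 2 = m at h5 h6 h7 ⊢
  generalize m * i = q at h5 h6
  omega

lemma sb_conn (h1 : ∀ p ∈ P, Ri g p ∨ Fa g p) (J i : ℕ) : (sb g P J i).OrdConnected := by
  refine ⟨fun σ₀ h0 σ₁ h1' ζ hζ => ?_⟩
  have h4 : rk g P J σ₀ / (J + 2) ^ 2 = i := h0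
  have h5 : rk g P J σ₁ / (J + 2) ^ 2 = i := h1'
  show rk g P J ζ / (J + 2) ^ 2 = i
  apply le_antisymm
  · rw [← h5]
    exact Nat.div_le_div_right (rk_mono h1 hζ.2)
  · rw [← h4]
    exact Nat.div_le_div_right (rk_mono h1 hζ.1)

open scoped Classical in
lemma sb_events (h1 : ∀ p ∈ P, Ri g p ∨ Fa g p) (J i : ℕ) :
    ∀ σ₀ ∈ sb g P J i, ∀ σ₁ ∈ sb g P J i, σ₀ ≤ σ₁ →
      #((EV g P (3 * J + 2)).filter (fun e => σ₀ < ss e ∧ ss e ≤ σ₁)) < (J + 2) ^ 2 := by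
  intro σ₀ h0 σ₁ h1' h
  have h2 := rk_diff h1 (J := J) h (empty_subset P) (fun p hp => absurd hp (notMem_empty _))
  have h3 := sb_lt h0 h1'
  omega

lemma sb_cross (h1 : ∀ p ∈ P, Ri g p ∨ Fa g p) (J i : ℕ) :
    ∀ X : Finset (ℝ × ℝ), X ⊆ P → (∀ p ∈ X, Xs g (sb g P J i) p) → #X ≤ J + 1 := by
  classical
  intro X hXP hX
  rcases X.eq_empty_or_nonempty with h | hne
  · rw [h, card_empty]
    exact Nat.zero_le _
  have hch : ∀ p ∈ X, ∃ z : ℝ × ℝ, z.1 ∈ sb g P J i ∧ z.2 ∈ sb g P J i ∧ z.1 ≤ z.2 ∧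
      cc g p z.1 < cc g p z.2 := by
    intro p hp
    obtain ⟨σ, hσ, τ, hτ, hne⟩ := hX p hp
    rcases le_total σ τ with h | h
    · exact ⟨(σ, τ), hσ, hτ, h, lt_of_le_of_ne (cc_mono (h1 p (hXP hp)) h) hne⟩
    · exact ⟨(τ, σ), hτ, hσ, h, lt_of_le_of_ne (cc_mono (h1 p (hXP hp)) h) hne.symm⟩
  choose! z hz using hch
  obtain ⟨p₀, hp₀, hmin⟩ := exists_min_image X (fun p => (z p).1) hne
  obtain ⟨p₁, hp₁, hmax⟩ := exists_max_image X (fun p => (z p).2) hne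
  have hab : (z p₀).1 ≤ (z p₁).2 := (hz p₀ hp₀).2.2.1.trans (hmax p₀ hp₀)
  have h2 := rk_diff h1 (J := J) hab hXP (by
    intro p hp
    have a1 := cc_mono (h1 p (hXP hp)) (hmin p hp)
    have a2 := cc_mono (h1 p (hXP hp)) (hmax p hp)
    have a3 := (hz p hp).2.2.2
    omega)
  have h3 := sb_lt (hz p₀ hp₀).1 (hz p₁ hp₁).2.1
  by_contra hc
  push Not at hc
  have h4 : (J + 2) * (J + 2) ≤ (J + 2) * #X := Nat.mul_le_mul_left _ hc
  have h5 : (J + 2) ^ 2 = (J + 2) * (J + 2) := by ring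
  omega

lemma NN_on {p : ℝ × ℝ} {σ : ℝ} (h : hh σ p = g σ) : NN g P σ p = 0 := by
  classical
  unfold NN
  rw [card_eq_zero]
  apply filter_false_of_mem
  intro w _ hb
  rcases hb with hb | hb
  · linarith [hb.1, hb.2]
  · linarith [hb.1, hb.2]

open scoped Classical in
/-- the `k`-edges of a slab -/
theorem kes_slab (hP : GP P) {J k : ℕ} {I : Set ℝ} (hI : I.OrdConnected)
    (hev : ∀ σ₀ ∈ I, ∀ σ₁ ∈ I, σ₀ ≤ σ₁ →
      #((EV g P (3 * J + 2)).filter (fun e => σ₀ < ss e ∧ ss e ≤ σ₁)) < (J + 2) ^ 2)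
    (hX : ∀ X : Finset (ℝ × ℝ), X ⊆ P → (∀ p ∈ X, Xs g I p) → #X ≤ J + 1) :
    ∃ T ⊆ P, #T ≤ 10 * (J + 2) ∧ ∃ j,
      (kes P k).filter (fun e => ss e ∈ I ∧ NN g P (ss e) e.1 ≤ J) ⊆ kes T j := by
  set F := (kes P k).filter (fun e => ss e ∈ I ∧ NN g P (ss e) e.1 ≤ J) with hF
  rcases F.eq_empty_or_nonempty with h | ⟨e₀, he₀⟩
  · exact ⟨∅, empty_subset _, by simp, 0, by rw [h]; exact empty_subset _⟩
  set T := P.filter (Dn g P J I) ∪ P.filter (Xs g I) with hT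
  have hTP : T ⊆ P := union_subset (filter_subset _ _) (filter_subset _ _)
  have hTc : #T ≤ 10 * (J + 2) := by
    have h1 : #T ≤ #(P.filter (Dn g P J I)) + #(P.filter (Xs g I)) := card_union_le _ _
    have h2 := slab hP hI hev hX
    have h3 := hX (P.filter (Xs g I)) (filter_subset _ _) (fun q hq => (mem_filter.1 hq).2)
    omega
  set σ₀ := ss e₀ with hσ₀
  have hσI : σ₀ ∈ I := (mem_filter.1 he₀).2.1
  set c := #((P \ T).filter (fun w => hh σ₀ w < g σ₀)) with hc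
  have hnT : ∀ w ∈ P \ T, w ∈ P ∧ ¬ Dn g P J I w ∧ ¬ Xs g I w := by
    intro w hw
    rw [mem_sdiff, hT, mem_union, mem_filter, mem_filter] at hw
    push Not at hw
    exact ⟨hw.1, hw.2.1 hw.1, hw.2.2 hw.1⟩
  have hsub : F ⊆ kes T (k - c) := by
    intro e he
    rw [hF, mem_filter] at he
    obtain ⟨hk, hslI, hN⟩ := he
    have hke := mem_kes.1 hk
    set σ := ss e with hσ
    have e2 : hh σ e.2 = hh σ e.1 := hh_sl hke.2.2.1.ne
    have hmem : ∀ z ∈ P, hh σ z = hh σ e.1 → z ∈ T := by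
      intro z hz hzV
      rw [hT, mem_union, mem_filter]
      exact Or.inl ⟨hz, σ, hslI, by rw [NN_eq hzV]; exact hN⟩
    have hcmp : ∀ w ∈ P \ T, (hh σ w < hh σ e.1 ↔ hh σ₀ w < g σ₀) := by
      intro w hw
      obtain ⟨hwP, hwD, hwX⟩ := hnT w hw
      have hcc : cc g w σ = cc g w σ₀ := by
        by_contra h
        exact hwX ⟨σ, hslI, σ₀, hσI, h⟩
      have h2 : hh σ₀ w < g σ₀ ↔ hh σ w < g σ := ⟨cc_below hcc.symm, cc_below hcc⟩
      rw [h2]
      have hbig : J < NN g P σ w := by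
        by_contra h
        exact hwD ⟨σ, hslI, not_lt.1 h⟩
      rcases lt_trichotomy (hh σ w) (g σ) with h | h | h
      · refine ⟨fun _ => h, fun _ => ?_⟩
        by_contra h3
        push Not at h3
        have : NN g P σ w ≤ NN g P σ e.1 := by
          unfold NN
          apply card_le_card
          intro z hz
          rw [mem_filter] at hz ⊢
          refine ⟨hz.1, ?_⟩
          rcases hz.2 with h4 | h4
          · exfalso
            linarith [h4.1, h4.2]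
          · exact Or.inr ⟨by linarith [h4.1], h4.2⟩
        omega
      · rw [NN_on h] at hbig
        omega
      · refine ⟨fun h3 => ?_, fun h3 => by linarith⟩
        exfalso
        have : NN g P σ w ≤ NN g P σ e.1 := by
          unfold NN
          apply card_le_card
          intro z hz
          rw [mem_filter] at hz ⊢
          refine ⟨hz.1, ?_⟩
          rcases hz.2 with h4 | h4
          · exact Or.inl ⟨h4.1, by linarith [h4.2]⟩
          · exfalso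
            linarith [h4.1, h4.2]
        omega
    have hbel : bel P σ e.1 = bel T σ e.1 + c := by
      unfold bel
      rw [hc, ← filter_congr hcmp]
      rw [← card_union_of_disjoint]
      · congr 1
        ext z
        simp only [mem_filter, mem_union, mem_sdiff]
        constructor
        · rintro ⟨h1, h2⟩
          by_cases h3 : z ∈ T
          · exact Or.inl ⟨h3, h2⟩
          · exact Or.inr ⟨⟨h1, h3⟩, h2⟩
        · rintro (⟨h1, h2⟩ | ⟨⟨h1, -⟩, h2⟩)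
          · exact ⟨hTP h1, h2⟩
          · exact ⟨h1, h2⟩
      · rw [disjoint_left]
        intro z h1 h2
        exact (mem_sdiff.1 (mem_filter.1 h2).1).2 (mem_filter.1 h1).1
    rw [mem_kes]
    refine ⟨hmem _ hke.1 rfl, hmem _ hke.2.1 e2, hke.2.2.1, ?_⟩
    have h5 : bel P σ e.1 = k := hke.2.2.2
    show bel T σ e.1 = k - c
    omega
  exact ⟨T, hTP, hTc, k - c, hsub⟩

/-- **Reduction to few points.** -/
theorem kes_red (hP : GP P) (h1 : ∀ p ∈ P, Ri g p ∨ Fa g p) {k J E : ℕ} {K : Finset Seg}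
    (hK : K ⊆ kes P k) (hN : ∀ e ∈ K, NN g P (ss e) e.1 ≤ J)
    (hE : ∀ T ⊆ P, #T ≤ 10 * (J + 2) → ∀ j, #(kes T j) ≤ E) :
    #K ≤ (98 * (J + 2) * #P / (J + 2) ^ 2 + 1) * E := by
  classical
  set m := 98 * (J + 2) * #P / (J + 2) ^ 2 with hm
  set F : ℕ → Finset Seg := fun i => (kes P k).filter (fun e => ss e ∈ sb g P J i ∧
      NN g P (ss e) e.1 ≤ J) with hF
  have hFi : ∀ i, #(F i) ≤ E := by
    intro i
    obtain ⟨T, h2, h3, j, h4⟩ := kes_slab (k := k) hP (sb_conn h1 J i) (sb_events h1 J i)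
      (sb_cross h1 J i)
    exact (card_le_card h4).trans (hE T h2 h3 j)
  have hsub : K ⊆ (range (m + 1)).biUnion F := by
    intro e he
    rw [mem_biUnion]
    refine ⟨rk g P J (ss e) / (J + 2) ^ 2, ?_, ?_⟩
    · rw [mem_range]
      exact Nat.lt_succ_of_le (Nat.div_le_div_right (rk_le hP h1 J _))
    · rw [hF, mem_filter]
      exact ⟨hK he, rfl, hN e he⟩
  calc #K ≤ ∑ i ∈ range (m + 1), #(F i) := (card_le_card hsub).trans card_biUnion_le
    _ ≤ ∑ i ∈ range (m + 1), E := sum_le_sum fun i _ => hFi i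
    _ = _ := by rw [sum_const, card_range, smul_eq_mul]

lemma slabs_le (n J : ℕ) :
    ((98 * (J + 2) * n / (J + 2) ^ 2 + 1 : ℕ) : ℝ) ≤ 98 * n / ((J : ℝ) + 2) + 1 := by
  rw [Nat.cast_add, Nat.cast_one]
  have h3 : ((98 * (J + 2) * n / (J + 2) ^ 2 : ℕ) : ℝ) ≤
      ((98 * (J + 2) * n : ℕ) : ℝ) / (((J + 2) ^ 2 : ℕ) : ℝ) := Nat.cast_div_le
  have h5 : ((98 * (J + 2) * n : ℕ) : ℝ) / (((J + 2) ^ 2 : ℕ) : ℝ) = 98 * n / ((J : ℝ) + 2) := by
    push_cast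
    field_simp
  linarith

/-- Dey's bound -/
lemma dey {T : Finset (ℝ × ℝ)} (hT : GP T) {N : ℕ} (hN : #T ≤ N) (j : ℕ) :
    (#(kes T j) : ℝ) ≤ 7 * ((N : ℝ) * (N : ℝ)) ^ (2 / 3 : ℝ) := by
  have h2 := kes_bound hT (k := j) (c := 0) (fun i => i.elim0) (fun i => i.elim0)
  have h3 : T \ (univ.biUnion (fun i : Fin 0 => (i.elim0 : Finset (ℝ × ℝ)))) = T := by
    simp
  rw [h3] at h2
  have h4 : (#T : ℝ) ≤ (N : ℝ) := by exact_mod_cast hN
  have h5 : ((#T : ℝ) * #T) ^ (2 / 3 : ℝ) ≤ ((N : ℝ) * (N : ℝ)) ^ (2 / 3 : ℝ) := by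
    apply Real.rpow_le_rpow (by positivity) _ (by norm_num)
    exact mul_le_mul h4 h4 (by positivity) (by positivity)
  have h6 : (4 : ℝ) * ((0 : ℕ) : ℝ) * (#T : ℝ) = 0 := by simp
  rw [h6, zero_add] at h2
  linarith

theorem kes_nat (hP : GP P) (h1 : ∀ p ∈ P, Ri g p ∨ Fa g p) {k J : ℕ} {K : Finset Seg}
    (hK : K ⊆ kes P k) (hN : ∀ e ∈ K, NN g P (ss e) e.1 ≤ J) :
    (#K : ℝ) ≤ (98 * #P / ((J : ℝ) + 2) + 1) *
      (7 * (((10 * (J + 2) : ℕ) : ℝ) * ((10 * (J + 2) : ℕ) : ℝ)) ^ (2 / 3 : ℝ)) := by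
  set B : ℝ := 7 * (((10 * (J + 2) : ℕ) : ℝ) * ((10 * (J + 2) : ℕ) : ℝ)) ^ (2 / 3 : ℝ) with hB
  have hB0 : 0 ≤ B := by positivity
  have h2 := kes_red hP h1 (E := ⌊B⌋₊) hK hN (by
    intro T hTP hT j
    apply Nat.le_floor
    exact dey (hP.mono hTP) hT j)
  have h3 : (#K : ℝ) ≤ ((98 * (J + 2) * #P / (J + 2) ^ 2 + 1 : ℕ) : ℝ) * (⌊B⌋₊ : ℝ) := by
    exact_mod_cast h2
  refine h3.trans (mul_le_mul (slabs_le _ _) (Nat.floor_le hB0) (by positivity) (by positivity))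

/-- **The bound.** -/
theorem kes_main (hP : GP P) (h1 : ∀ p ∈ P, Ri g p ∨ Fa g p) {k t : ℕ} {K : Finset Seg}
    (hK : K ⊆ kes P k) (hN : ∀ e ∈ K, NN g P (ss e) e.1 ≤ t) :
    (#K : ℝ) ≤ 20000 * #P * ((t : ℝ) + 1) ^ (1 / 3 : ℝ) := by
  classical
  rcases K.eq_empty_or_nonempty with h | ⟨e, he⟩
  · rw [h, card_empty, Nat.cast_zero]
    positivity
  have hke := mem_kes.1 (hK he)
  have hk := bel_abv hP hke.1 hke.2.1 hke.2.2.1
  set J := min t #P with hJ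
  have hJt : J ≤ t := min_le_left _ _
  have hJn : J ≤ #P := min_le_right _ _
  have key := kes_nat hP h1 (k := k) (J := J) hK (by
    intro e he
    refine le_min (hN e he) ?_
    unfold NN
    exact card_le_card (filter_subset _ _))
  set X : ℝ := (J : ℝ) + 2 with hX
  have hX0 : 0 < X := by positivity
  set Y : ℝ := X ^ (1 / 3 : ℝ) with hY
  have hY0 : 0 ≤ Y := by positivity
  have hdey : 7 * (((10 * (J + 2) : ℕ) : ℝ) * ((10 * (J + 2) : ℕ) : ℝ)) ^ (2 / 3 : ℝ) ≤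
      151 * (X * Y) := by
    push_cast
    rw [← hX]
    have h3 : ((10 : ℝ) * X * (10 * X)) = 100 * X ^ 2 := by ring
    rw [h3, Real.mul_rpow (by norm_num) (by positivity)]
    have h4 : (X ^ 2) ^ (2 / 3 : ℝ) = X * Y := by
      rw [hY, ← Real.rpow_natCast X 2, ← Real.rpow_mul hX0.le]
      have : X * X ^ (1 / 3 : ℝ) = X ^ (1 : ℝ) * X ^ (1 / 3 : ℝ) := by rw [Real.rpow_one]
      rw [this, ← Real.rpow_add hX0]
      norm_num
    have h5 : (100 : ℝ) ^ (2 / 3 : ℝ) ≤ 151 / 7 := by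
      refine le_of_pow_le_pow_left₀ (n := 3) (by norm_num) (by norm_num) ?_
      rw [← Real.rpow_natCast, ← Real.rpow_mul (by norm_num)]
      norm_num
    rw [h4]
    have h6 : 0 ≤ X * Y := by positivity
    nlinarith
  have hmain : (#K : ℝ) ≤ (98 * #P / X + 1) * (151 * (X * Y)) :=
    key.trans (mul_le_mul_of_nonneg_left hdey (by positivity))
  have h7 : (98 * (#P : ℝ) / X + 1) * (151 * (X * Y)) = (14798 * #P + 151 * X) * Y := by
    field_simp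
    ring
  rw [h7] at hmain
  have hn2 : (2 : ℝ) ≤ #P := by exact_mod_cast (by omega : 2 ≤ #P)
  have hXn : X ≤ 2 * #P := by
    have : (J : ℝ) ≤ #P := by exact_mod_cast hJn
    linarith
  set Z : ℝ := ((t : ℝ) + 1) ^ (1 / 3 : ℝ) with hZ
  have hZ0 : 0 ≤ Z := by positivity
  have hYZ : Y ≤ 1.26 * Z := by
    have h8 : X ≤ 2 * ((t : ℝ) + 1) := by
      have : (J : ℝ) ≤ t := by exact_mod_cast hJt
      have h9 : (0 : ℝ) ≤ t := Nat.cast_nonneg t
      linarith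
    calc Y ≤ (2 * ((t : ℝ) + 1)) ^ (1 / 3 : ℝ) := Real.rpow_le_rpow hX0.le h8 (by norm_num)
      _ = 2 ^ (1 / 3 : ℝ) * Z := by rw [Real.mul_rpow (by norm_num) (by positivity)]
      _ ≤ 1.26 * Z := by
          apply mul_le_mul_of_nonneg_right _ (by positivity)
          refine le_of_pow_le_pow_left₀ (n := 3) (by norm_num) (by norm_num) ?_
          rw [← Real.rpow_natCast, ← Real.rpow_mul (by norm_num)]
          norm_num
  have h8 : (14798 * (#P : ℝ) + 151 * X) * Y ≤ (15100 * #P) * (1.26 * Z) := by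
    apply mul_le_mul _ hYZ hY0 (by positivity)
    linarith
  have h9 : 0 ≤ (#P : ℝ) * Z := by positivity
  nlinarith

section family

variable {c : ℕ} {G : Fin c → ℝ → ℝ}

/-- several curves: the reduction -/
theorem kes_red_fam (hP : GP P) (h1 : ∀ i, ∀ p ∈ P, Ri (G i) p ∨ Fa (G i) p) {k J E : ℕ}
    (hN : ∀ e ∈ kes P k, ∃ i, NN (G i) P (ss e) e.1 ≤ J)
    (hE : ∀ T ⊆ P, #T ≤ 10 * (J + 2) → ∀ j, #(kes T j) ≤ E) :
    #(kes P k) ≤ c * ((98 * (J + 2) * #P / (J + 2) ^ 2 + 1) * E) := by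
  classical
  have hsub : kes P k ⊆
      univ.biUnion (fun i : Fin c => (kes P k).filter (fun e => NN (G i) P (ss e) e.1 ≤ J)) := by
    intro e he
    obtain ⟨i, hi⟩ := hN e he
    rw [mem_biUnion]
    exact ⟨i, mem_univ _, mem_filter.2 ⟨he, hi⟩⟩
  refine ((card_le_card hsub).trans card_biUnion_le).trans ?_
  calc ∑ i : Fin c, #((kes P k).filter (fun e => NN (G i) P (ss e) e.1 ≤ J)) ≤
      ∑ i : Fin c, ((98 * (J + 2) * #P / (J + 2) ^ 2 + 1) * E) :=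
        sum_le_sum fun i _ => kes_red hP (h1 i) (filter_subset _ _)
          (fun e he => (mem_filter.1 he).2) hE
    _ = _ := by rw [sum_const, card_univ, Fintype.card_fin, smul_eq_mul]

/-- several curves: the explicit bound -/
theorem kes_main_fam (hP : GP P) (h1 : ∀ i, ∀ p ∈ P, Ri (G i) p ∨ Fa (G i) p) {k t : ℕ}
    (hN : ∀ e ∈ kes P k, ∃ i, NN (G i) P (ss e) e.1 ≤ t) :
    (#(kes P k) : ℝ) ≤ 20000 * c * #P * ((t : ℝ) + 1) ^ (1 / 3 : ℝ) := by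
  classical
  have hsub : kes P k ⊆
      univ.biUnion (fun i : Fin c => (kes P k).filter (fun e => NN (G i) P (ss e) e.1 ≤ t)) := by
    intro e he
    obtain ⟨i, hi⟩ := hN e he
    rw [mem_biUnion]
    exact ⟨i, mem_univ _, mem_filter.2 ⟨he, hi⟩⟩
  have h2 : (#(kes P k) : ℝ) ≤
      ∑ i : Fin c, (#((kes P k).filter (fun e => NN (G i) P (ss e) e.1 ≤ t)) : ℝ) := by
    exact_mod_cast (card_le_card hsub).trans card_biUnion_le
  refine h2.trans ?_
  calc ∑ i : Fin c, (#((kes P k).filter (fun e => NN (G i) P (ss e) e.1 ≤ t)) : ℝ) ≤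
      ∑ i : Fin c, (20000 * #P * ((t : ℝ) + 1) ^ (1 / 3 : ℝ)) :=
        sum_le_sum fun i _ => kes_main hP (h1 i) (filter_subset _ _)
          (fun e he => (mem_filter.1 he).2)
    _ = _ := by
        rw [sum_const, card_univ, Fintype.card_fin, nsmul_eq_mul]
        ring

end family

end Pool.Agent.U272.DP
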