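import Pool.Agent.U272.DP.Count

/-!
# Slabs of directions: only few points come close to the curve
-/

set_option autoImplicit false

namespace Pool.Agent.U272.DP

open Finset Pool.Agent.TH124.KE Filter Topology

theorem cross_lin {A : Finset (ℝ × ℝ)} (F : ℝ → ℝ × ℝ → ℝ) (hF : ∀ w, Continuous (fun σ => F σ w))
    {p : ℝ × ℝ} {M J : ℕ} (hJM : J ≤ M) {σ₀ σ₁ : ℝ} (h01 : σ₀ ≤ σ₁)
    (h0 : M < #{w ∈ A | F σ₀ w < F σ₀ p}) (h1 : #{w ∈ A | F σ₁ w < F σ₁ p} ≤ J) :
    ∃ W ⊆ A, M + 1 ≤ #W + J ∧ p ∉ W ∧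
      ∀ w ∈ W, ∃ ζ, σ₀ < ζ ∧ ζ ≤ σ₁ ∧ F ζ w = F ζ p ∧ #{w ∈ A | F ζ w < F ζ p} ≤ M := by
  classical
  set Z : Set ℝ := {σ | σ ∈ Set.Icc σ₀ σ₁ ∧ M < #{w ∈ A | F σ w < F σ p}} with hZ
  have hZne : Z.Nonempty := ⟨σ₀, ⟨le_rfl, h01⟩, h0⟩
  have hZb : BddAbove Z := ⟨σ₁, fun σ hσ => hσ.1.2⟩
  set s := sSup Z with hs
  have hs1 : s ≤ σ₁ := csSup_le hZne fun σ hσ => hσ.1.2
  have hs0 : σ₀ ≤ s := le_csSup hZb ⟨⟨le_rfl, h01⟩, h0⟩
  have hb : ∀ σ, s < σ → σ ≤ σ₁ → #{w ∈ A | F σ w < F σ p} ≤ M := by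
    intro σ h2 h3
    by_contra h4
    push Not at h4
    exact absurd (le_csSup hZb ⟨⟨hs0.trans h2.le, h3⟩, h4⟩) (not_le.2 h2)
  have ha : #{w ∈ A | F s w < F s p} ≤ M := by
    rcases eq_or_lt_of_le hs1 with h2 | h2
    · rw [h2]
      exact h1.trans hJM
    · by_contra h3
      push Not at h3
      have hev : ∀ᶠ σ in 𝓝 s, ∀ w ∈ A.filter (fun w => F s w < F s p), F σ w < F σ p := by
        rw [Filter.eventually_all_finset]
        intro w hw
        exact (isOpen_lt (hF w) (hF p)).mem_nhds (mem_filter.1 hw).2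
      have hev2 : ∀ᶠ σ in 𝓝[>] s, ∀ w ∈ A.filter (fun w => F s w < F s p), F σ w < F σ p :=
        hev.filter_mono nhdsWithin_le_nhds
      have hev3 : ∀ᶠ σ in 𝓝[>] s, σ ∈ Set.Ioo s σ₁ := Ioo_mem_nhdsGT h2
      obtain ⟨σ, h4, h5⟩ := (hev2.and hev3).exists
      have h6 := hb σ h5.1 h5.2.le
      have h7 : #{w ∈ A | F s w < F s p} ≤ #{w ∈ A | F σ w < F σ p} := by
        apply card_le_card
        intro w hw
        exact mem_filter.2 ⟨(mem_filter.1 hw).1, h4 w hw⟩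
      omega
  have hlt : σ₀ < s := by
    rcases eq_or_lt_of_le hs0 with h2 | h2
    · rw [← h2] at ha
      omega
    · exact h2
  set G : Finset (Finset (ℝ × ℝ)) := A.powerset.filter (fun W => M + 1 ≤ #W ∧ p ∉ W) with hG
  set C : Set ℝ := ⋃ W ∈ G, {σ | ∀ w ∈ W, F σ w ≤ F σ p} with hC
  have hCcl : IsClosed C := by
    rw [hC]
    apply Set.Finite.isClosed_biUnion G.finite_toSet
    intro W _
    have : {σ : ℝ | ∀ w ∈ W, F σ w ≤ F σ p} = ⋂ w ∈ W, {σ | F σ w ≤ F σ p} := by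
      ext σ
      simp
    rw [this]
    exact isClosed_biInter fun w _ => isClosed_le (hF w) (hF p)
  have hZC : Z ⊆ C := by
    intro σ hσ
    rw [hC, Set.mem_iUnion₂]
    refine ⟨A.filter (fun w => F σ w < F σ p), ?_, ?_⟩
    · rw [hG, mem_filter, mem_powerset]
      refine ⟨filter_subset _ _, hσ.2, ?_⟩
      intro h
      exact lt_irrefl _ (mem_filter.1 h).2
    · intro w hw
      exact (mem_filter.1 hw).2.le
  have hsC : s ∈ C := hCcl.closure_subset_iff.2 hZC (csSup_mem_closure hZne hZb)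
  rw [hC, Set.mem_iUnion₂] at hsC
  obtain ⟨W, hW, hsW⟩ := hsC
  rw [hG, mem_filter, mem_powerset] at hW
  obtain ⟨hWA, hWc, hWp⟩ := hW
  refine ⟨W.filter (fun w => F σ₁ p ≤ F σ₁ w), (filter_subset _ _).trans hWA, ?_, ?_, ?_⟩
  · have h2 : #W ≤ #(W.filter (fun w => F σ₁ p ≤ F σ₁ w)) +
        #(A.filter (fun w => F σ₁ w < F σ₁ p)) := by
      refine (card_le_card (t := W.filter (fun w => F σ₁ p ≤ F σ₁ w) ∪
        A.filter (fun w => F σ₁ w < F σ₁ p)) ?_).trans (card_union_le _ _)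
      intro w hw
      rw [mem_union, mem_filter, mem_filter]
      rcases le_or_gt (F σ₁ p) (F σ₁ w) with h | h
      · exact Or.inl ⟨hw, h⟩
      · exact Or.inr ⟨hWA hw, h⟩
    omega
  · intro h
    exact hWp (mem_filter.1 h).1
  · intro w hw
    rw [mem_filter] at hw
    have h2 : F s w - F s p ≤ 0 := sub_nonpos.2 (hsW w hw.1)
    have h3 : 0 ≤ F σ₁ w - F σ₁ p := sub_nonneg.2 hw.2
    have hcont : ContinuousOn (fun σ => F σ w - F σ p) (Set.Icc s σ₁) :=
      ((hF w).sub (hF p)).continuousOn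
    obtain ⟨ζ, hζ, hζ2⟩ := intermediate_value_Icc hs1 hcont ⟨h2, h3⟩
    refine ⟨ζ, lt_of_lt_of_le hlt hζ.1, hζ.2, sub_eq_zero.1 hζ2, ?_⟩
    rcases eq_or_lt_of_le hζ.1 with h4 | h4
    · rw [← h4]
      exact ha
    · exact hb ζ h4 hζ.2

section

variable {g : ℝ → ℝ} {P : Finset (ℝ × ℝ)}

open scoped Classical in
/-- the position of `p` relative to `g` as a number which does not decrease -/
noncomputable def cc (g : ℝ → ℝ) (p : ℝ × ℝ) (σ : ℝ) : ℕ :=
  if Ri g p then (if g σ ≤ hh σ p then 1 else 0) + (if g σ < hh σ p then 1 else 0)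
  else (if hh σ p ≤ g σ then 1 else 0) + (if hh σ p < g σ then 1 else 0)

lemma cc_le (p : ℝ × ℝ) (σ : ℝ) : cc g p σ ≤ 2 := by
  unfold cc
  split_ifs <;> norm_num

lemma cc_mono {p : ℝ × ℝ} (h : Ri g p ∨ Fa g p) {σ τ : ℝ} (hστ : σ ≤ τ) : cc g p σ ≤ cc g p τ := by
  unfold cc
  by_cases hr : Ri g p
  · rw [if_pos hr, if_pos hr]
    apply Nat.add_le_add
    · by_cases h1 : g σ ≤ hh σ p
      · have h2 : g τ ≤ hh τ p := by
          by_contra hc
          push Not at hc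
          have := hr.2 _ _ hστ hc
          linarith
        rw [if_pos h1, if_pos h2]
      · rw [if_neg h1]
        exact Nat.zero_le _
    · by_cases h1 : g σ < hh σ p
      · rw [if_pos h1, if_pos (hr.1 _ _ hστ h1)]
      · rw [if_neg h1]
        exact Nat.zero_le _
  · have hf := h.resolve_left hr
    rw [if_neg hr, if_neg hr]
    apply Nat.add_le_add
    · by_cases h1 : hh σ p ≤ g σ
      · have h2 : hh τ p ≤ g τ := by
          by_contra hc
          push Not at hc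
          have := hf.2 _ _ hστ hc
          linarith
        rw [if_pos h1, if_pos h2]
      · rw [if_neg h1]
        exact Nat.zero_le _
    · by_cases h1 : hh σ p < g σ
      · rw [if_pos h1, if_pos (hf.1 _ _ hστ h1)]
      · rw [if_neg h1]
        exact Nat.zero_le _

lemma cc_above {p : ℝ × ℝ} {σ τ : ℝ} (h : cc g p σ = cc g p τ) (h1 : g σ < hh σ p) :
    g τ < hh τ p := by
  unfold cc at h
  by_cases hr : Ri g p
  · rw [if_pos hr, if_pos hr, if_pos h1.le, if_pos h1] at h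
    by_contra hc
    rw [if_neg hc] at h
    split_ifs at h <;> omega
  · rw [if_neg hr, if_neg hr, if_neg (not_le.2 h1), if_neg (not_lt.2 h1.le)] at h
    by_contra hc
    rw [if_pos (not_lt.1 hc)] at h
    omega

lemma cc_below {p : ℝ × ℝ} {σ τ : ℝ} (h : cc g p σ = cc g p τ) (h1 : hh σ p < g σ) :
    hh τ p < g τ := by
  unfold cc at h
  by_cases hr : Ri g p
  · rw [if_pos hr, if_pos hr, if_neg (not_le.2 h1), if_neg (not_lt.2 h1.le)] at h
    by_contra hc
    rw [if_pos (not_lt.1 hc)] at h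
    omega
  · rw [if_neg hr, if_neg hr, if_pos h1.le, if_pos h1] at h
    by_contra hc
    rw [if_neg hc] at h
    split_ifs at h <;> omega

/-- `p` changes its position in `I` -/
def Xs (g : ℝ → ℝ) (I : Set ℝ) (p : ℝ × ℝ) : Prop := ∃ σ ∈ I, ∃ τ ∈ I, cc g p σ ≠ cc g p τ

/-- the points which come close to `g` in the slab `I` -/
def Dn (g : ℝ → ℝ) (P : Finset (ℝ × ℝ)) (J : ℕ) (I : Set ℝ) (p : ℝ × ℝ) : Prop :=
  ∃ σ ∈ I, NN g P σ p ≤ J

lemma height_two (hP : GP P) (σ v : ℝ) : #{p ∈ P | hh σ p = v} ≤ 2 := by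
  by_contra hc
  push Not at hc
  obtain ⟨p, hp, q, hq, r, hr, hpq, hpr, hqr⟩ := Finset.two_lt_card.1 hc
  rw [mem_filter] at hp hq hr
  have h1 : p.1 ≠ q.1 := hP.ne1 hp.1 hq.1 hpq
  have h2 : p.1 ≠ r.1 := hP.ne1 hp.1 hr.1 hpr
  have e1 : sl p q = σ := (hh_eq h1 σ).1 (hq.2.trans hp.2.symm)
  have e2 : sl p r = σ := (hh_eq h2 σ).1 (hr.2.trans hp.2.symm)
  exact hP.col p hp.1 q hq.1 r hr.1 hpq hpr hqr (e1.trans e2.symm)

open scoped Classical in
lemma top_count (hP : GP P) (σ : ℝ) (M : ℕ) : #(P.filter (fun p => NN g P σ p ≤ M)) ≤ 2 * M + 6 := by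
  have h1 : #(P.filter (fun p => NN g P σ p ≤ M ∧ g σ < hh σ p)) ≤ M + 2 := by
    rcases (P.filter (fun p => NN g P σ p ≤ M ∧ g σ < hh σ p)).eq_empty_or_nonempty with h | h
    · rw [h, card_empty]
      exact Nat.zero_le _
    · obtain ⟨p, hp, hmax⟩ := exists_max_image _ (fun p => hh σ p) h
      rw [mem_filter] at hp
      have hsub : P.filter (fun p => NN g P σ p ≤ M ∧ g σ < hh σ p) ⊆
          P.filter (Bt g σ p) ∪ P.filter (fun w => hh σ w = hh σ p) := by
        intro w hw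
        have h1 := hmax w hw
        rw [mem_filter] at hw
        rw [mem_union, mem_filter, mem_filter]
        rcases lt_or_eq_of_le h1 with h2 | h2
        · exact Or.inl ⟨hw.1, Or.inl ⟨hw.2.2, h2⟩⟩
        · exact Or.inr ⟨hw.1, h2⟩
      have h2 := (card_le_card hsub).trans (card_union_le _ _)
      have h3 := height_two hP σ (hh σ p)
      have h4 : #(P.filter (Bt g σ p)) ≤ M := hp.2.1
      omega
  have h2 : #(P.filter (fun p => NN g P σ p ≤ M ∧ hh σ p < g σ)) ≤ M + 2 := by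
    rcases (P.filter (fun p => NN g P σ p ≤ M ∧ hh σ p < g σ)).eq_empty_or_nonempty with h | h
    · rw [h, card_empty]
      exact Nat.zero_le _
    · obtain ⟨p, hp, hmin⟩ := exists_min_image _ (fun p => hh σ p) h
      rw [mem_filter] at hp
      have hsub : P.filter (fun p => NN g P σ p ≤ M ∧ hh σ p < g σ) ⊆
          P.filter (Bt g σ p) ∪ P.filter (fun w => hh σ w = hh σ p) := by
        intro w hw
        have h1 := hmin w hw
        rw [mem_filter] at hw
        rw [mem_union, mem_filter, mem_filter]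
        rcases lt_or_eq_of_le h1 with h2 | h2
        · exact Or.inl ⟨hw.1, Or.inr ⟨h2, hw.2.2⟩⟩
        · exact Or.inr ⟨hw.1, h2.symm⟩
      have h2 := (card_le_card hsub).trans (card_union_le _ _)
      have h3 := height_two hP σ (hh σ p)
      have h4 : #(P.filter (Bt g σ p)) ≤ M := hp.2.1
      omega
  have h3 := height_two hP σ (g σ)
  have hsub : P.filter (fun p => NN g P σ p ≤ M) ⊆
      P.filter (fun p => NN g P σ p ≤ M ∧ g σ < hh σ p) ∪
        (P.filter (fun p => NN g P σ p ≤ M ∧ hh σ p < g σ) ∪ P.filter (fun p => hh σ p = g σ)) := by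
    intro w hw
    rw [mem_filter] at hw
    rw [mem_union, mem_union, mem_filter, mem_filter, mem_filter]
    rcases lt_trichotomy (hh σ w) (g σ) with h | h | h
    · exact Or.inr (Or.inl ⟨hw.1, hw.2, h⟩)
    · exact Or.inr (Or.inr ⟨hw.1, h⟩)
    · exact Or.inl ⟨hw.1, hw.2, h⟩
  have h4 := (card_le_card hsub).trans ((card_union_le _ _).trans
    (Nat.add_le_add_left (card_union_le _ _) _))
  omega

/-- a point which comes down has many events -/
lemma comes_down (hP : GP P) {J : ℕ} {I : Set ℝ} (hI : I.OrdConnected)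
    (hX : ∀ X : Finset (ℝ × ℝ), X ⊆ P → (∀ p ∈ X, Xs g I p) → #X ≤ J + 1) {p : ℝ × ℝ} (hp : p ∈ P)
    (hpX : ¬ Xs g I p) {σ₀ τ : ℝ} (h0I : σ₀ ∈ I) (hτI : τ ∈ I) (h0τ : σ₀ ≤ τ)
    (h0 : 3 * J + 2 < NN g P σ₀ p) (h1 : NN g P τ p ≤ J) :
    ∃ W ⊆ P, J + 2 ≤ #W ∧ ∀ w ∈ W, p.1 ≠ w.1 ∧ σ₀ < sl p w ∧ sl p w ≤ τ ∧
      hh (sl p w) p ≠ g (sl p w) ∧ NN g P (sl p w) p ≤ 3 * J + 2 := by
  classical
  have hcon : ∀ w, ¬ Xs g I w → ∀ σ ∈ I, ∀ σ' ∈ I, cc g w σ = cc g w σ' := by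
    intro w hw σ hσ σ' hσ'
    by_contra h
    exact hw ⟨σ, hσ, σ', hσ', h⟩
  have hXc := hX (P.filter (Xs g I)) (filter_subset _ _) (fun q hq => (mem_filter.1 hq).2)
  have hsgn : g σ₀ < hh σ₀ p ∨ hh σ₀ p < g σ₀ := by
    rcases lt_trichotomy (hh σ₀ p) (g σ₀) with h | h | h
    · exact Or.inr h
    · exfalso
      have : NN g P σ₀ p = 0 := by
        unfold NN
        rw [card_eq_zero]
        apply filter_false_of_mem
        intro w _ hb
        rcases hb with hb | hb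
        · linarith [hb.1, hb.2]
        · linarith [hb.1, hb.2]
      omega
    · exact Or.inl h
  rcases hsgn with hs | hs
  · -- above
    set A := P.filter (fun w => ¬ Xs g I w ∧ g σ₀ < hh σ₀ w) with hA
    have hab : ∀ w ∈ A, ∀ σ ∈ I, g σ < hh σ w := fun w hw σ hσ =>
      cc_above (hcon w (mem_filter.1 hw).2.1 σ₀ h0I σ hσ) (mem_filter.1 hw).2.2
    have hpab : ∀ σ ∈ I, g σ < hh σ p := fun σ hσ => cc_above (hcon p hpX σ₀ h0I σ hσ) hs
    have hup : ∀ σ ∈ I, NN g P σ p ≤ #{w ∈ A | hh σ w < hh σ p} + (J + 1) := by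
      intro σ hσ
      have hsub : P.filter (Bt g σ p) ⊆ {w ∈ A | hh σ w < hh σ p} ∪ P.filter (Xs g I) := by
        intro w hw
        rw [mem_filter] at hw
        rw [mem_union, mem_filter, mem_filter, mem_filter]
        by_cases hwX : Xs g I w
        · exact Or.inr ⟨hw.1, hwX⟩
        · rcases hw.2 with h | h
          · exact Or.inl ⟨⟨hw.1, hwX, cc_above (hcon w hwX σ hσ σ₀ h0I) h.1⟩, h.2⟩
          · exfalso
            linarith [hpab σ hσ, h.1, h.2]
      have h2 := (card_le_card hsub).trans (card_union_le _ _)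
      have h3 : NN g P σ p = #(P.filter (Bt g σ p)) := rfl
      omega
    have hlo : ∀ σ ∈ I, #{w ∈ A | hh σ w < hh σ p} ≤ NN g P σ p := by
      intro σ hσ
      apply card_le_card
      intro w hw
      rw [mem_filter] at hw
      exact mem_filter.2 ⟨(mem_filter.1 hw.1).1, Or.inl ⟨hab w hw.1 σ hσ, hw.2⟩⟩
    obtain ⟨W, hWA, hWc, hWp, hWζ⟩ := cross_lin (A := A) hh (fun w => by unfold hh; fun_prop)
      (p := p) (M := 2 * J + 1) (J := J) (by omega) h0τ
      (by have := hup σ₀ h0I; omega) ((hlo τ hτI).trans h1)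
    refine ⟨W, hWA.trans (filter_subset _ _), by omega, ?_⟩
    intro w hw
    obtain ⟨ζ, z1, z2, z3, z4⟩ := hWζ w hw
    have hwP : w ∈ P := (mem_filter.1 (hWA hw)).1
    have hwp : p ≠ w := fun h => hWp (h ▸ hw)
    have hne := hP.ne1 hp hwP hwp
    have hsl : sl p w = ζ := (hh_eq hne ζ).1 z3
    have hζI : ζ ∈ I := hI.out h0I hτI ⟨z1.le, z2⟩
    rw [hsl]
    refine ⟨hne, z1, z2, (hpab ζ hζI).ne', ?_⟩
    have := hup ζ hζI
    omega
  · -- below
    set A := P.filter (fun w => ¬ Xs g I w ∧ hh σ₀ w < g σ₀) with hA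
    have hab : ∀ w ∈ A, ∀ σ ∈ I, hh σ w < g σ := fun w hw σ hσ =>
      cc_below (hcon w (mem_filter.1 hw).2.1 σ₀ h0I σ hσ) (mem_filter.1 hw).2.2
    have hpab : ∀ σ ∈ I, hh σ p < g σ := fun σ hσ => cc_below (hcon p hpX σ₀ h0I σ hσ) hs
    have hup : ∀ σ ∈ I, NN g P σ p ≤ #{w ∈ A | - hh σ w < - hh σ p} + (J + 1) := by
      intro σ hσ
      have hsub : P.filter (Bt g σ p) ⊆ {w ∈ A | - hh σ w < - hh σ p} ∪ P.filter (Xs g I) := by
        intro w hw
        rw [mem_filter] at hw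
        rw [mem_union, mem_filter, mem_filter, mem_filter]
        by_cases hwX : Xs g I w
        · exact Or.inr ⟨hw.1, hwX⟩
        · rcases hw.2 with h | h
          · exfalso
            linarith [hpab σ hσ, h.1, h.2]
          · exact Or.inl ⟨⟨hw.1, hwX, cc_below (hcon w hwX σ hσ σ₀ h0I) h.2⟩, by linarith [h.1]⟩
      have h2 := (card_le_card hsub).trans (card_union_le _ _)
      have h3 : NN g P σ p = #(P.filter (Bt g σ p)) := rfl
      omega
    have hlo : ∀ σ ∈ I, #{w ∈ A | - hh σ w < - hh σ p} ≤ NN g P σ p := by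
      intro σ hσ
      apply card_le_card
      intro w hw
      rw [mem_filter] at hw
      exact mem_filter.2 ⟨(mem_filter.1 hw.1).1, Or.inr ⟨by linarith [hw.2], hab w hw.1 σ hσ⟩⟩
    obtain ⟨W, hWA, hWc, hWp, hWζ⟩ := cross_lin (A := A) (fun σ w => - hh σ w)
      (fun w => by unfold hh; fun_prop)
      (p := p) (M := 2 * J + 1) (J := J) (by omega) h0τ
      (by have := hup σ₀ h0I; omega) ((hlo τ hτI).trans h1)
    refine ⟨W, hWA.trans (filter_subset _ _), by omega, ?_⟩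
    intro w hw
    obtain ⟨ζ, z1, z2, z3, z4⟩ := hWζ w hw
    have hwP : w ∈ P := (mem_filter.1 (hWA hw)).1
    have hwp : p ≠ w := fun h => hWp (h ▸ hw)
    have hne := hP.ne1 hp hwP hwp
    have hsl : sl p w = ζ := (hh_eq hne ζ).1 (neg_injective z3)
    have hζI : ζ ∈ I := hI.out h0I hτI ⟨z1.le, z2⟩
    rw [hsl]
    refine ⟨hne, z1, z2, (hpab ζ hζI).ne, ?_⟩
    have := hup ζ hζI
    omega

lemma NN_eq {p q : ℝ × ℝ} {σ : ℝ} (h : hh σ p = hh σ q) : NN g P σ p = NN g P σ q := by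
  unfold NN Bt
  rw [h]

open scoped Classical in
theorem slab (hP : GP P) {J : ℕ} {I : Set ℝ} (hI : I.OrdConnected)
    (hev : ∀ σ₀ ∈ I, ∀ σ₁ ∈ I, σ₀ ≤ σ₁ →
      #((EV g P (3 * J + 2)).filter (fun e => σ₀ < ss e ∧ ss e ≤ σ₁)) < (J + 2) ^ 2)
    (hX : ∀ X : Finset (ℝ × ℝ), X ⊆ P → (∀ p ∈ X, Xs g I p) → #X ≤ J + 1) :
    #(P.filter (Dn g P J I)) ≤ 9 * J + 14 := by
  set S := P.filter (fun p => Dn g P J I p ∧ ¬ Xs g I p) with hS
  have hXc := hX (P.filter (Xs g I)) (filter_subset _ _) (fun q hq => (mem_filter.1 hq).2)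
  have hDS : #(P.filter (Dn g P J I)) ≤ #S + #(P.filter (Xs g I)) := by
    refine (card_le_card ?_).trans (card_union_le _ _)
    intro p hp
    rw [mem_filter] at hp
    rw [mem_union, hS, mem_filter, mem_filter]
    by_cases h : Xs g I p
    · exact Or.inr ⟨hp.1, h⟩
    · exact Or.inl ⟨hp.1, hp.2, h⟩
  rcases S.eq_empty_or_nonempty with h | hne
  · rw [h, card_empty] at hDS
    omega
  have hch : ∀ p ∈ S, ∃ σ : ℝ, σ ∈ I ∧ NN g P σ p ≤ J := by
    intro p hp
    obtain ⟨σ, h1, h2⟩ := (mem_filter.1 hp).2.1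
    exact ⟨σ, h1, h2⟩
  choose! γ hγ using hch
  obtain ⟨p₀, hp₀, hmin⟩ := exists_min_image S γ hne
  obtain ⟨p₁, hp₁, hmax⟩ := exists_max_image S γ hne
  set σ₀ := γ p₀ with hσ₀
  set σ₁ := γ p₁ with hσ₁
  have hevI := hev σ₀ (hγ p₀ hp₀).1 σ₁ (hγ p₁ hp₁).1 (hmin p₁ hp₁)
  set E' := (EV g P (3 * J + 2)).filter (fun e => σ₀ < ss e ∧ ss e ≤ σ₁) with hE'
  set S' := S.filter (fun p => 3 * J + 2 < NN g P σ₀ p) with hS'
  have hfib : ∀ p ∈ S', J + 2 ≤ #((E'.filter (fun e => e.1 ∈ S')).filter (fun e => e.1 = p)) +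
      #((E'.filter (fun e => e.2 ∈ S')).filter (fun e => e.2 = p)) := by
    intro p hp
    have hpS := (mem_filter.1 hp).1
    have hpP := (mem_filter.1 hpS).1
    obtain ⟨W, hWP, hWc, hW⟩ := comes_down hP hI hX hpP (mem_filter.1 hpS).2.2 (hγ p₀ hp₀).1
      (hγ p hpS).1 (hmin p hpS) (mem_filter.1 hp).2 (hγ p hpS).2
    have h1 : W ⊆ (W.filter (fun w => p.1 < w.1)) ∪ (W.filter (fun w => w.1 < p.1)) := by
      intro w hw
      rw [mem_union, mem_filter, mem_filter]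
      rcases lt_or_gt_of_ne (hW w hw).1 with h | h
      · exact Or.inl ⟨hw, h⟩
      · exact Or.inr ⟨hw, h⟩
    have h2 := (card_le_card h1).trans (card_union_le _ _)
    have h3 : #(W.filter (fun w => p.1 < w.1)) ≤
        #((E'.filter (fun e => e.1 ∈ S')).filter (fun e => e.1 = p)) := by
      apply card_le_card_of_injOn (fun q => ((p, q) : Seg))
      · intro w hw
        rw [mem_coe, mem_filter] at hw
        obtain ⟨a1, a2, a3, a4, a5⟩ := hW w hw.1
        rw [mem_coe, mem_filter, mem_filter, hE', mem_filter]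
        unfold EV
        rw [mem_filter, mem_product]
        exact ⟨⟨⟨⟨⟨hpP, hWP hw.1⟩, hw.2, a4, a5⟩, a2, a3.trans (hmax p hpS)⟩, hp⟩, rfl⟩
      · intro q _ q' _ h
        exact congrArg Prod.snd h
    have h4 : #(W.filter (fun w => w.1 < p.1)) ≤
        #((E'.filter (fun e => e.2 ∈ S')).filter (fun e => e.2 = p)) := by
      apply card_le_card_of_injOn (fun q => ((q, p) : Seg))
      · intro w hw
        rw [mem_coe, mem_filter] at hw
        obtain ⟨a1, a2, a3, a4, a5⟩ := hW w hw.1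
        have e1 : hh (sl p w) w = hh (sl p w) p := hh_sl a1
        have e2 : ss ((w, p) : Seg) = sl p w := sl_comm w p
        rw [mem_coe, mem_filter, mem_filter, hE', mem_filter]
        unfold EV
        rw [mem_filter, mem_product, e2]
        refine ⟨⟨⟨⟨⟨hWP hw.1, hpP⟩, hw.2, ?_, ?_⟩, a2, a3.trans (hmax p hpS)⟩, hp⟩, rfl⟩
        · show hh (sl p w) w ≠ g (sl p w)
          rw [e1]
          exact a4
        · show NN g P (sl p w) w ≤ 3 * J + 2
          rw [NN_eq e1]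
          exact a5
      · intro q _ q' _ h
        exact congrArg Prod.fst h
    omega
  have hsum1 : #(E'.filter (fun e => e.1 ∈ S')) =
      ∑ p ∈ S', #((E'.filter (fun e => e.1 ∈ S')).filter (fun e => e.1 = p)) :=
    card_eq_sum_card_fiberwise (fun e he => (mem_filter.1 he).2)
  have hsum2 : #(E'.filter (fun e => e.2 ∈ S')) =
      ∑ p ∈ S', #((E'.filter (fun e => e.2 ∈ S')).filter (fun e => e.2 = p)) :=
    card_eq_sum_card_fiberwise (fun e he => (mem_filter.1 he).2)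
  have h1 : #S' * (J + 2) ≤ 2 * #E' := by
    calc #S' * (J + 2) = ∑ p ∈ S', (J + 2) := by rw [sum_const, smul_eq_mul]
      _ ≤ ∑ p ∈ S', (#((E'.filter (fun e => e.1 ∈ S')).filter (fun e => e.1 = p)) +
            #((E'.filter (fun e => e.2 ∈ S')).filter (fun e => e.2 = p))) :=
          sum_le_sum hfib
      _ = #(E'.filter (fun e => e.1 ∈ S')) + #(E'.filter (fun e => e.2 ∈ S')) := by
          rw [sum_add_distrib, ← hsum1, ← hsum2]
      _ ≤ #E' + #E' := Nat.add_le_add (card_le_card (filter_subset _ _))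
          (card_le_card (filter_subset _ _))
      _ = 2 * #E' := by ring
  have h2 : #S' < 2 * (J + 2) := by
    by_contra hc
    push Not at hc
    have h3 : 2 * (J + 2) * (J + 2) ≤ #S' * (J + 2) := Nat.mul_le_mul_right _ hc
    have h4 : 2 * (J + 2) * (J + 2) = 2 * (J + 2) ^ 2 := by ring
    omega
  have h3 : #S ≤ #S' + #(P.filter (fun p => NN g P σ₀ p ≤ 3 * J + 2)) := by
    refine (card_le_card ?_).trans (card_union_le _ _)
    intro p hp
    rw [mem_union]
    rcases le_or_gt (NN g P σ₀ p) (3 * J + 2) with h | h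
    · exact Or.inr (mem_filter.2 ⟨(mem_filter.1 hp).1, h⟩)
    · exact Or.inl (mem_filter.2 ⟨hp, h⟩)
  have h4 := top_count (g := g) hP σ₀ (3 * J + 2)
  omega

end

end Pool.Agent.U272.DP
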