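import Pool.Agent.TH124.KE.Few

/-!
# The zone of a curve: pairs with few points between their line and a curve
-/

set_option autoImplicit false

namespace Pool.Agent.U272.DP

open Finset Pool.Agent.TH124.KE

/-- `p` passes from below `g` to above `g` -/
def Ri (g : ℝ → ℝ) (p : ℝ × ℝ) : Prop :=
  (∀ σ τ, σ ≤ τ → g σ < hh σ p → g τ < hh τ p) ∧ (∀ σ τ, σ ≤ τ → hh τ p < g τ → hh σ p < g σ)

/-- `p` passes from above `g` to below `g` -/
def Fa (g : ℝ → ℝ) (p : ℝ × ℝ) : Prop :=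
  (∀ σ τ, σ ≤ τ → hh σ p < g σ → hh τ p < g τ) ∧ (∀ σ τ, σ ≤ τ → g τ < hh τ p → g σ < hh σ p)

/-- `w` is strictly between `g` and `p` -/
def Bt (g : ℝ → ℝ) (σ : ℝ) (p w : ℝ × ℝ) : Prop :=
  (g σ < hh σ w ∧ hh σ w < hh σ p) ∨ (hh σ p < hh σ w ∧ hh σ w < g σ)

lemma lt_before {p q : ℝ × ℝ} (h : p.1 < q.1) {σ : ℝ} (hσ : σ < sl p q) : hh σ p < hh σ q := by
  rw [sl_comm] at hσ
  exact (hh_lt_left h σ).2 hσ

lemma lt_after {p q : ℝ × ℝ} (h : p.1 < q.1) {σ : ℝ} (hσ : sl p q < σ) : hh σ q < hh σ p :=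
  (hh_lt_right h σ).2 hσ

open scoped Classical in
/-- crossings above `g` with nothing in between -/
noncomputable def E0 (g : ℝ → ℝ) (W : Finset (ℝ × ℝ)) : Finset Seg :=
  (W ×ˢ W).filter (fun e => e.1.1 < e.2.1 ∧ g (ss e) < hh (ss e) e.1 ∧
    ∀ w ∈ W, ¬ (g (ss e) < hh (ss e) w ∧ hh (ss e) w < hh (ss e) e.1))

lemma ss_inj {W : Finset (ℝ × ℝ)} (hW : GP W) {g : ℝ → ℝ} {e f : Seg} (he : e ∈ E0 g W)
    (hf : f ∈ E0 g W) (h : ss e = ss f) : e = f := by
  unfold E0 at he hf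
  rw [mem_filter, mem_product] at he hf
  obtain ⟨⟨he1, he2⟩, he3, he4, he5⟩ := he
  obtain ⟨⟨hf1, hf2⟩, hf3, hf4, hf5⟩ := hf
  rw [← h] at hf4 hf5
  have a1 := he5 f.1 hf1
  have a2 := hf5 e.1 he1
  have heq : hh (ss e) f.1 = hh (ss e) e.1 := by
    rcases lt_trichotomy (hh (ss e) f.1) (hh (ss e) e.1) with h1 | h1 | h1
    · exact absurd ⟨hf4, h1⟩ a1
    · exact h1
    · exact absurd ⟨he4, h1⟩ a2
  have hee : e.1 ≠ e.2 := by intro hc; rw [hc] at he3; exact lt_irrefl _ he3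
  have hff : f.1 ≠ f.2 := by intro hc; rw [hc] at hf3; exact lt_irrefl _ hf3
  have e2 : hh (ss e) e.2 = hh (ss e) e.1 := hh_sl he3.ne
  have f2 : hh (ss e) f.2 = hh (ss e) f.1 := by
    rw [h]
    exact hh_sl hf3.ne
  by_cases h1 : e.1 = f.1
  · exact seg_ext hW he1 he2 he3 hf2 hf3 h1 h
  · exfalso
    have s1 : sl e.1 f.1 = ss e := (hh_eq (hW.ne1 he1 hf1 h1) _).1 heq
    by_cases h2 : f.1 = e.2
    · have h3 : e.1 ≠ f.2 := by
        intro hc
        rw [h2] at hf3
        rw [← hc] at hf3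
        exact lt_asymm hf3 he3
      have s2 : sl e.1 f.2 = ss e := (hh_eq (hW.ne1 he1 hf2 h3) _).1 (f2.trans heq)
      exact hW.col e.1 he1 f.1 hf1 f.2 hf2 h1 h3 hff (s1.trans s2.symm)
    · exact hW.col e.1 he1 f.1 hf1 e.2 he2 h1 hee h2 (s1.trans rfl)

section zero

variable {g : ℝ → ℝ} {W : Finset (ℝ × ℝ)}

open scoped Classical in
lemma class_one (hW : GP W) : #((E0 g W).filter (fun e => Ri g e.1 ∧ Ri g e.2)) ≤ #W := by
  apply card_le_card_of_injOn (fun e => e.1)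
  · intro e he
    rw [mem_coe, mem_filter] at he
    unfold E0 at he
    rw [mem_filter, mem_product] at he
    exact he.1.1.1
  · intro e he f hf hef
    rw [mem_coe, mem_filter] at he hf
    have key : ∀ e f : Seg, e ∈ E0 g W → f ∈ E0 g W → Ri g e.2 → e.1 = f.1 → ¬ ss e < ss f := by
      intro e f he hf hr hef hlt
      unfold E0 at he hf
      rw [mem_filter, mem_product] at he hf
      obtain ⟨⟨he1, he2⟩, he3, he4, he5⟩ := he
      obtain ⟨⟨hf1, hf2⟩, hf3, hf4, hf5⟩ := hf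
      have e2 : hh (ss e) e.2 = hh (ss e) e.1 := hh_sl he3.ne
      apply hf5 e.2 he2
      refine ⟨hr.1 _ _ hlt.le (by rw [e2]; exact he4), ?_⟩
      rw [← hef]
      exact lt_after he3 hlt
    apply ss_inj hW he.1 hf.1
    rcases lt_trichotomy (ss e) (ss f) with h | h | h
    · exact absurd h (key e f he.1 hf.1 he.2.2 hef)
    · exact h
    · exact absurd h (key f e hf.1 he.1 hf.2.2 hef.symm)

open scoped Classical in
lemma class_two (hW : GP W) : #((E0 g W).filter (fun e => Fa g e.1 ∧ Fa g e.2)) ≤ #W := by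
  apply card_le_card_of_injOn (fun e => e.2)
  · intro e he
    rw [mem_coe, mem_filter] at he
    unfold E0 at he
    rw [mem_filter, mem_product] at he
    exact he.1.1.2
  · intro e he f hf hef
    rw [mem_coe, mem_filter] at he hf
    have key : ∀ e f : Seg, e ∈ E0 g W → f ∈ E0 g W → Fa g f.1 → e.2 = f.2 → ¬ ss e < ss f := by
      intro e f he hf hr hef hlt
      unfold E0 at he hf
      rw [mem_filter, mem_product] at he hf
      obtain ⟨⟨he1, he2⟩, he3, he4, he5⟩ := he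
      obtain ⟨⟨hf1, hf2⟩, hf3, hf4, hf5⟩ := hf
      have e2 : hh (ss e) e.2 = hh (ss e) e.1 := hh_sl he3.ne
      apply he5 f.1 hf1
      refine ⟨hr.2 _ _ hlt.le hf4, ?_⟩
      rw [← e2, hef]
      exact lt_before hf3 hlt
    apply ss_inj hW he.1 hf.1
    rcases lt_trichotomy (ss e) (ss f) with h | h | h
    · exact absurd h (key e f he.1 hf.1 hf.2.1 hef)
    · exact h
    · exact absurd h (key f e hf.1 he.1 he.2.1 hef.symm)

lemma not_fa {p : ℝ × ℝ} (h : Ri g p) (h' : ¬ Fa g p) : ∃ x, hh x p ≤ g x := by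
  by_contra hc
  push Not at hc
  apply h'
  exact ⟨fun σ _ _ h1 => absurd h1 (not_lt.2 (hc σ).le), fun σ _ _ _ => hc σ⟩

lemma not_ri {p : ℝ × ℝ} (h : Fa g p) (h' : ¬ Ri g p) : ∃ x, hh x p ≤ g x := by
  by_contra hc
  push Not at hc
  apply h'
  exact ⟨fun _ τ _ _ => hc τ, fun _ τ _ h1 => absurd h1 (not_lt.2 (hc τ).le)⟩

open scoped Classical in
/-- the third class -/
noncomputable def C3 (g : ℝ → ℝ) (W : Finset (ℝ × ℝ)) : Finset Seg :=
  (E0 g W).filter (fun e => ¬ (Ri g e.1 ∧ Ri g e.2) ∧ ¬ (Fa g e.1 ∧ Fa g e.2))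

lemma c3_type (h1 : ∀ p ∈ W, Ri g p ∨ Fa g p) {e : Seg} (he : e ∈ C3 g W) :
    Ri g e.1 ∧ (∃ x, hh x e.1 ≤ g x) ∧ Fa g e.2 ∧ (∃ x, hh x e.2 ≤ g x) := by
  classical
  unfold C3 at he
  rw [mem_filter] at he
  obtain ⟨he, n1, n2⟩ := he
  unfold E0 at he
  rw [mem_filter, mem_product] at he
  obtain ⟨⟨he1, he2⟩, he3, he4, he5⟩ := he
  have e2 : hh (ss e) e.2 = hh (ss e) e.1 := hh_sl he3.ne
  by_cases hr : Ri g e.1
  · have hr2 : ¬ Ri g e.2 := fun h => n1 ⟨hr, h⟩
    have hf2 := (h1 _ he2).resolve_left hr2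
    have hf1 : ¬ Fa g e.1 := fun h => n2 ⟨h, hf2⟩
    exact ⟨hr, not_fa hr hf1, hf2, not_ri hf2 hr2⟩
  · exfalso
    have hf1 := (h1 _ he1).resolve_left hr
    have hf2 : ¬ Fa g e.2 := fun h => n2 ⟨hf1, h⟩
    have hr2 := (h1 _ he2).resolve_right hf2
    obtain ⟨x, hx⟩ := not_fa hr2 hf2
    have hx2 : x < ss e := by
      by_contra hc
      push Not at hc
      have := hr2.1 _ _ hc (by rw [e2]; exact he4)
      linarith
    have h3 := hf1.2 _ _ hx2.le he4
    have h4 := lt_before he3 hx2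
    linarith

lemma c3_order (h1 : ∀ p ∈ W, Ri g p ∨ Fa g p) {e f : Seg} (he : e ∈ C3 g W) (hf : f ∈ C3 g W)
    (hlt : ss e < ss f) : hh (ss e) f.1 ≤ g (ss e) ∨ hh (ss f) e.2 ≤ g (ss f) := by
  classical
  obtain ⟨hr, ⟨x0, hx0⟩, -, -⟩ := c3_type h1 hf
  obtain ⟨-, -, hfa, -⟩ := c3_type h1 he
  unfold C3 E0 at he hf
  rw [mem_filter, mem_filter, mem_product] at he hf
  obtain ⟨⟨⟨he1, he2⟩, he3, he4, he5⟩, -⟩ := he
  obtain ⟨⟨⟨hf1, hf2⟩, hf3, hf4, hf5⟩, -⟩ := hf
  have e2 : hh (ss e) e.2 = hh (ss e) e.1 := hh_sl he3.ne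
  by_contra hc
  push Not at hc
  obtain ⟨c1, c2⟩ := hc
  have d1 : hh (ss e) e.2 ≤ hh (ss e) f.1 := by
    rw [e2]
    by_contra h
    push Not at h
    exact he5 f.1 hf1 ⟨c1, h⟩
  have d2 : hh (ss f) f.1 ≤ hh (ss f) e.2 := by
    by_contra h
    push Not at h
    exact hf5 e.2 he2 ⟨c2, h⟩
  have hx : x0 < ss e := by
    by_contra hc
    push Not at hc
    have := hr.1 _ _ hc c1
    linarith
  have d3 := hfa.2 _ _ hx.le (by rw [e2]; exact he4)
  have d4 : hh x0 f.1 < hh x0 e.2 := lt_of_le_of_lt hx0 d3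
  unfold hh at d1 d2 d4
  -- `D σ = (e.2.2 - f.1.2) - σ (e.2.1 - f.1.1)`
  have d5 : 0 < e.2.1 - f.1.1 := by
    by_contra h
    push Not at h
    nlinarith
  nlinarith

open scoped Classical in
lemma class_three (hW : GP W) (h1 : ∀ p ∈ W, Ri g p ∨ Fa g p) : #(C3 g W) ≤ #W + 1 := by
  rcases (C3 g W).eq_empty_or_nonempty with h0 | h0
  · rw [h0, card_empty]
    exact Nat.zero_le _
  obtain ⟨m, hm, hmax⟩ := exists_max_image (C3 g W) ss h0
  have hsub : ∀ e ∈ C3 g W, e ∈ E0 g W := fun e he => (mem_filter.1 he).1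
  have hlt : ∀ e ∈ (C3 g W).erase m, ∃ f ∈ C3 g W, ss e < ss f ∧
      ∀ f' ∈ C3 g W, ss e < ss f' → ss f ≤ ss f' := by
    intro e he
    rw [mem_erase] at he
    have h2 : ss e < ss m := lt_of_le_of_ne (hmax e he.2)
      (fun h => he.1 (ss_inj hW (hsub _ he.2) (hsub _ hm) h))
    obtain ⟨f, hf, hmin⟩ := exists_min_image ((C3 g W).filter (fun f => ss e < ss f)) ss
      ⟨m, mem_filter.2 ⟨hm, h2⟩⟩
    rw [mem_filter] at hf
    exact ⟨f, hf.1, hf.2, fun f' h3 h4 => hmin f' (mem_filter.2 ⟨h3, h4⟩)⟩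
  choose! nx hnx using hlt
  have hmem : ∀ e ∈ C3 g W, e.1 ∈ W ∧ e.2 ∈ W ∧ e.1.1 < e.2.1 ∧ g (ss e) < hh (ss e) e.1 := by
    intro e he
    have := hsub e he
    unfold E0 at this
    rw [mem_filter, mem_product] at this
    exact ⟨this.1.1, this.1.2, this.2.1, this.2.2.1⟩
  have hcard : #((C3 g W).erase m) ≤ #W := by
    apply card_le_card_of_injOn
      (fun e => if hh (ss e) (nx e).1 ≤ g (ss e) then (nx e).1 else e.2)
    · intro e he
      rw [mem_coe] at he
      have h2 := hnx e he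
      rw [mem_coe]
      by_cases h3 : hh (ss e) (nx e).1 ≤ g (ss e)
      · simp only [h3, if_true]
        exact (hmem _ h2.1).1
      · simp only [h3, if_false]
        exact (hmem _ (mem_erase.1 he).2).2.1
    · have key : ∀ e ∈ (C3 g W).erase m, ∀ f ∈ (C3 g W).erase m, ss e < ss f →
          (if hh (ss e) (nx e).1 ≤ g (ss e) then (nx e).1 else e.2) ≠
          (if hh (ss f) (nx f).1 ≤ g (ss f) then (nx f).1 else f.2) := by
        intro e he f hf hef heq
        obtain ⟨a1, a2, a3⟩ := hnx e he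
        obtain ⟨b1, b2, b3⟩ := hnx f hf
        have he' := (mem_erase.1 he).2
        have hf' := (mem_erase.1 hf).2
        have a4 := a3 f hf' hef
        obtain ⟨t1, -, -, -⟩ := c3_type h1 a1
        obtain ⟨-, -, t2, -⟩ := c3_type h1 he'
        obtain ⟨-, -, t3, -⟩ := c3_type h1 hf'
        obtain ⟨t4, -, -, -⟩ := c3_type h1 b1
        obtain ⟨m1, m2, m3, m4⟩ := hmem _ a1
        obtain ⟨n1, n2, n3, n4⟩ := hmem _ hf'
        have n5 : hh (ss f) f.2 = hh (ss f) f.1 := hh_sl n3.ne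
        obtain ⟨o1, o2, o3, o4⟩ := hmem _ b1
        by_cases h3 : hh (ss e) (nx e).1 ≤ g (ss e)
        · rw [if_pos h3] at heq
          by_cases h4 : hh (ss f) (nx f).1 ≤ g (ss f)
          · rw [if_pos h4] at heq
            -- `nx e` is above `g` at `ss (nx e) ≤ ss f`
            have := t1.1 _ _ a4 m4
            rw [heq] at this
            linarith
          · rw [if_neg h4] at heq
            -- `(nx e).1 = f.2` falls, but it is below or on `g` at `ss e` and above at `ss f`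
            have := t3.2 _ _ hef.le (by rw [n5]; exact n4)
            rw [← heq] at this
            linarith
        · rw [if_neg h3] at heq
          have h5 := (c3_order h1 he' a1 a2).resolve_left h3
          by_cases h4 : hh (ss f) (nx f).1 ≤ g (ss f)
          · rw [if_pos h4] at heq
            -- `e.2 = (nx f).1` falls and rises
            have h6 : g (ss (nx f)) < hh (ss (nx f)) e.2 := by rw [heq]; exact o4
            have := t2.2 _ _ (a4.trans b2.le) h6
            linarith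
          · rw [if_neg h4] at heq
            have h6 : g (ss f) < hh (ss f) e.2 := by rw [heq, n5]; exact n4
            have := t2.2 _ _ a4 h6
            linarith
      intro e he f hf hef
      rw [mem_coe] at he hf
      apply ss_inj hW (hsub _ (mem_erase.1 he).2) (hsub _ (mem_erase.1 hf).2)
      rcases lt_trichotomy (ss e) (ss f) with h | h | h
      · exact absurd hef (key e he f hf h)
      · exact h
      · exact absurd hef.symm (key f hf e he h)
  rw [card_erase_of_mem hm] at hcard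
  have := card_pos.2 h0
  omega

theorem E0_le (hW : GP W) (h1 : ∀ p ∈ W, Ri g p ∨ Fa g p) : #(E0 g W) ≤ 4 * #W := by
  classical
  rcases W.eq_empty_or_nonempty with h0 | h0
  · subst h0
    unfold E0
    simp
  have h2 := class_one (g := g) hW
  have h3 := class_two (g := g) hW
  have h4 := class_three hW h1
  have h5 : E0 g W ⊆ (E0 g W).filter (fun e => Ri g e.1 ∧ Ri g e.2) ∪
      ((E0 g W).filter (fun e => Fa g e.1 ∧ Fa g e.2) ∪ C3 g W) := by
    intro e he
    rw [mem_union, mem_union]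
    unfold C3
    rw [mem_filter, mem_filter, mem_filter]
    by_cases a : Ri g e.1 ∧ Ri g e.2
    · exact Or.inl ⟨he, a⟩
    · by_cases b : Fa g e.1 ∧ Fa g e.2
      · exact Or.inr (Or.inl ⟨he, b⟩)
      · exact Or.inr (Or.inr ⟨he, a, b⟩)
  have h6 := (card_le_card h5).trans ((card_union_le _ _).trans
    (Nat.add_le_add_left (card_union_le _ _) _))
  have h7 := card_pos.2 h0
  omega

end zero

end Pool.Agent.U272.DP
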